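import Pool.Agent.Helper49.OC2.Four

/-!
# The four-sample certificate T2 in the form of the interface
-/

namespace Pool.Agent.Helper49.OC2

open Finset Pool.Agent.Helper2.OC

/-- THE FOUR-SAMPLE INEQUALITY in the form of the interface -/
theorem fourIneq_T2 : FourIneq gT2 LT2 (1 / 4) kT2 := fourIneqA_T2

theorem gT2_zero : gT2 0 0 0 0 = 0 := by
  unfold gT2 cnt
  norm_num

theorem kT2_bound (p q : Comp) : |kT2 p q| ≤ 1 / 2 := by
  unfold kT2
  have h0 : (0 : ℤ) ≤ OC2.e2 p q := by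
    unfold OC2.e2 em ei
    positivity
  have h1 : OC2.e2 p q ≤ 4 := by
    unfold OC2.e2 em ei
    split_ifs <;> norm_num
  have h2 : (0 : ℝ) ≤ (OC2.e2 p q : ℝ) := by exact_mod_cast h0
  have h3 : (OC2.e2 p q : ℝ) ≤ 4 := by exact_mod_cast h1
  rw [abs_of_nonneg (by positivity)]
  linarith

/-- the payoff of T2 -/
theorem payoff_T2 (x y δ : ℝ) : payoff gT2 LT2 (1 / 4) x y δ =
    1 / 4 * (x - y) * (1 + (1 - x) + (1 - x) ^ 2 + (1 - x) ^ 3) +
    δ * (3 / 4 * (1 - x) ^ 2 + (1 - x) * (x - y) / 2 + (1 - x) * y + (x - y) ^ 2 / 8 +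
      (x - y) * y / 2 + y ^ 2 / 2) - δ ^ 2 / 4 := by
  have e1 : ∀ a b c d : Fin 3, gT2 a b c d = ((cnt 1 a b c d : ℕ) : ℝ) /
    (4 * ((cnt 1 a b c d : ℕ) + (cnt 2 a b c d : ℕ))) := fun _ _ _ _ => rfl
  have e2 : (![1 - x, x - y, y] : Fin 3 → ℝ) 2 = y := rfl
  have e3 : (![1 - x, x - y, y] : Fin 3 → ℝ) 1 = x - y := rfl
  have e4 : (![1 - x, x - y, y] : Fin 3 → ℝ) 0 = 1 - x := rfl
  have m1 : max (1 : Fin 3) 2 = 2 := by decide
  have m2 : max (2 : Fin 3) 1 = 2 := by decide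
  have m3 : max (0 : Fin 3) 2 = 2 := by decide
  have m4 : max (2 : Fin 3) 0 = 2 := by decide
  have m5 : max (0 : Fin 3) 1 = 1 := by decide
  have m6 : max (1 : Fin 3) 0 = 1 := by decide
  simp only [payoff, Fin.sum_univ_three, e1, e2, e3, e4, cnt, lamBar, LT2, sF, sD, sk, sL,
    m1, m2, m3, m4, m5, m6, max_self]
  norm_num [Fin.ext_iff]
  ring

end Pool.Agent.Helper49.OC2
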