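import Pool.Agent.Helper2.OC.Stats

/-!
# Four-sample inequality: basic counts for pairs of states
-/

namespace Pool.Agent.Helper49.OC2

open Finset Pool.Agent.Helper2.OC

/-- a state: the two colour sets of a component -/
abbrev Sta : Type := Bool → Finset ℕ

/-- live bit -/
def lB (a b : Bool) : ℤ := if a = b then 0 else 1
/-- free bit -/
def fB (a b : Bool) : ℤ := if (a || b) = true then 0 else 1
/-- dead bit -/
def dB (a b : Bool) : ℤ := if (a && b) = true then 1 else 0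

/-- membership bit -/
def bt (p : Sta) (c : ℕ) (σ : Bool) : Bool := decide (c ∈ p σ)
/-- live -/
def L (p : Sta) (c : ℕ) : ℤ := lB (bt p c false) (bt p c true)
/-- free -/
def F (p : Sta) (c : ℕ) : ℤ := fB (bt p c false) (bt p c true)
/-- dead -/
def D (p : Sta) (c : ℕ) : ℤ := dB (bt p c false) (bt p c true)

/-- live in one state, free in the other -/
def cu (p q : Sta) (c : ℕ) : ℤ := L p c * F q c + F p c * L q c
/-- live in both -/
def ck (p q : Sta) (c : ℕ) : ℤ := L p c * L q c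
/-- live in one state, dead in the other -/
def cd (p q : Sta) (c : ℕ) : ℤ := L p c * D q c + D p c * L q c
/-- live in one state, not free in the other -/
def kd (p q : Sta) (c : ℕ) : ℤ := ck p q c + cd p q c

/-- indicator of an empty side -/
def ei (p : Sta) (σ : Bool) : ℤ := if p σ ⊆ p (!σ) then 1 else 0
/-- number of empty sides -/
def em (p : Sta) : ℤ := ei p false + ei p true
/-- number of empty sides of both merges -/
def e2 (p q : Sta) : ℤ := em (mrg p q false) + em (mrg p q true)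

/-- every side has a private colour -/
def Sat (p : Sta) : Prop := ∀ σ, ∃ c ∈ p σ, c ∉ p (!σ)

/-- excess of the pair inequality -/
def exc (W : Finset ℕ) (p q : Sta) : ℤ :=
  ∑ c ∈ W, (2 * cu p q c + 2 * ck p q c + cd p q c) + e2 p q - 6

theorem bt_mrg (p q : Sta) (y : Bool) (c : ℕ) (σ : Bool) :
    bt (mrg p q y) c σ = (bt p c σ || bt q c (xor σ y)) := by
  unfold bt mrg
  by_cases h1 : c ∈ p σ <;> by_cases h2 : c ∈ q (xor σ y) <;> simp [h1, h2]

theorem bt_true {p : Sta} {c : ℕ} {σ : Bool} (h : c ∈ p σ) : bt p c σ = true := by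
  unfold bt; simpa using h

theorem bt_false {p : Sta} {c : ℕ} {σ : Bool} (h : c ∉ p σ) : bt p c σ = false := by
  unfold bt; simpa using h

theorem mem_of_bt {p : Sta} {c : ℕ} {σ : Bool} (h : bt p c σ = true) : c ∈ p σ := by
  unfold bt at h; simpa using h

theorem not_mem_of_bt {p : Sta} {c : ℕ} {σ : Bool} (h : bt p c σ = false) : c ∉ p σ := by
  unfold bt at h; simpa using h

theorem L_nonneg (p : Sta) (c : ℕ) : 0 ≤ L p c := by
  unfold L lB; split_ifs <;> norm_num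
theorem F_nonneg (p : Sta) (c : ℕ) : 0 ≤ F p c := by
  unfold F fB; split_ifs <;> norm_num
theorem D_nonneg (p : Sta) (c : ℕ) : 0 ≤ D p c := by
  unfold D dB; split_ifs <;> norm_num

theorem LFD (p : Sta) (c : ℕ) : L p c + F p c + D p c = 1 := by
  unfold L F D
  generalize bt p c false = x1
  generalize bt p c true = x2
  revert x1 x2
  decide

theorem cu_nonneg (p q : Sta) (c : ℕ) : 0 ≤ cu p q c :=
  add_nonneg (mul_nonneg (L_nonneg _ _) (F_nonneg _ _)) (mul_nonneg (F_nonneg _ _) (L_nonneg _ _))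
theorem ck_nonneg (p q : Sta) (c : ℕ) : 0 ≤ ck p q c := mul_nonneg (L_nonneg _ _) (L_nonneg _ _)
theorem cd_nonneg (p q : Sta) (c : ℕ) : 0 ≤ cd p q c :=
  add_nonneg (mul_nonneg (L_nonneg _ _) (D_nonneg _ _)) (mul_nonneg (D_nonneg _ _) (L_nonneg _ _))
theorem kd_nonneg (p q : Sta) (c : ℕ) : 0 ≤ kd p q c := add_nonneg (ck_nonneg _ _ _) (cd_nonneg _ _ _)

theorem cu_comm (p q : Sta) (c : ℕ) : cu p q c = cu q p c := by unfold cu; ring
theorem ck_comm (p q : Sta) (c : ℕ) : ck p q c = ck q p c := by unfold ck; ring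
theorem cd_comm (p q : Sta) (c : ℕ) : cd p q c = cd q p c := by unfold cd; ring
theorem kd_comm (p q : Sta) (c : ℕ) : kd p q c = kd q p c := by
  unfold kd; rw [ck_comm, cd_comm]

theorem ei_nonneg (p : Sta) (σ : Bool) : 0 ≤ ei p σ := by unfold ei; split_ifs <;> norm_num
theorem ei_le_one (p : Sta) (σ : Bool) : ei p σ ≤ 1 := by unfold ei; split_ifs <;> norm_num
theorem em_nonneg (p : Sta) : 0 ≤ em p := add_nonneg (ei_nonneg _ _) (ei_nonneg _ _)
theorem em_le_two (p : Sta) : em p ≤ 2 := by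
  unfold em; linarith [ei_le_one p false, ei_le_one p true]
theorem e2_nonneg (p q : Sta) : 0 ≤ e2 p q := add_nonneg (em_nonneg _) (em_nonneg _)

theorem mrg_swap (p q : Sta) (y σ : Bool) : mrg q p y σ = mrg p q y (xor σ y) := by
  unfold mrg
  rw [Bool.xor_assoc, Bool.xor_self, Bool.xor_false, Finset.union_comm]

theorem em_swap (p q : Sta) (y : Bool) : em (mrg q p y) = em (mrg p q y) := by
  unfold em ei
  rw [mrg_swap p q y, mrg_swap p q y, mrg_swap p q y, mrg_swap p q y]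
  cases y <;> simp [add_comm]

theorem e2_comm (p q : Sta) : e2 p q = e2 q p := by
  unfold e2; rw [em_swap q p, em_swap q p]

theorem exc_comm (W : Finset ℕ) (p q : Sta) : exc W p q = exc W q p := by
  unfold exc
  rw [e2_comm]
  congr 2
  refine Finset.sum_congr rfl fun c _ => ?_
  rw [cu_comm, ck_comm, cd_comm]

/-- live -/
def Live (p : Sta) (c : ℕ) : Prop := ∃ σ, c ∈ p σ ∧ c ∉ p (!σ)

theorem L_eq_one {p : Sta} {c : ℕ} (h : Live p c) : L p c = 1 := by
  obtain ⟨σ, h1, h2⟩ := h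
  unfold L lB
  cases σ
  · simp only [Bool.not_false] at h2
    rw [bt_true h1, bt_false h2]; simp
  · simp only [Bool.not_true] at h2
    rw [bt_true h1, bt_false h2]; simp

theorem live_iff {p : Sta} {c : ℕ} : Live p c ↔ L p c = 1 := by
  refine ⟨L_eq_one, fun h => ?_⟩
  unfold L lB at h
  cases h1 : bt p c false <;> cases h2 : bt p c true
  · rw [h1, h2] at h; simp at h
  · exact ⟨true, mem_of_bt h2, not_mem_of_bt h1⟩
  · exact ⟨false, mem_of_bt h1, not_mem_of_bt h2⟩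
  · rw [h1, h2] at h; simp at h

theorem L_zero_or_one (p : Sta) (c : ℕ) : L p c = 0 ∨ L p c = 1 := by
  unfold L lB; split_ifs <;> simp
theorem F_zero_or_one (p : Sta) (c : ℕ) : F p c = 0 ∨ F p c = 1 := by
  unfold F fB; split_ifs <;> simp
theorem D_zero_or_one (p : Sta) (c : ℕ) : D p c = 0 ∨ D p c = 1 := by
  unfold D dB; split_ifs <;> simp

/-- not free -/
theorem F_eq_zero {p : Sta} {c : ℕ} {σ : Bool} (h : c ∈ p σ) : F p c = 0 := by
  unfold F fB
  cases σ
  · rw [bt_true h]; simp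
  · rw [bt_true h]; simp

theorem mem_of_F_zero {p : Sta} {c : ℕ} (h : F p c = 0) : ∃ σ, c ∈ p σ := by
  unfold F fB at h
  cases h1 : bt p c false <;> cases h2 : bt p c true
  · rw [h1, h2] at h; simp at h
  · exact ⟨true, mem_of_bt h2⟩
  · exact ⟨false, mem_of_bt h1⟩
  · exact ⟨false, mem_of_bt h1⟩

theorem F_eq_one_iff {p : Sta} {c : ℕ} : F p c = 1 ↔ ∀ σ, c ∉ p σ := by
  constructor
  · intro h σ hσ
    rw [F_eq_zero hσ] at h
    norm_num at h
  · intro h
    rcases F_zero_or_one p c with h1 | h1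
    · obtain ⟨σ, hσ⟩ := mem_of_F_zero h1
      exact absurd hσ (h σ)
    · exact h1

theorem card_le_sum {W S : Finset ℕ} {f : ℕ → ℤ} (hS : S ⊆ W) (h0 : ∀ c, 0 ≤ f c)
    (h1 : ∀ c ∈ S, 1 ≤ f c) : (S.card : ℤ) ≤ ∑ c ∈ W, f c := by
  calc (S.card : ℤ) = ∑ c ∈ S, (1 : ℤ) := by simp
    _ ≤ ∑ c ∈ S, f c := Finset.sum_le_sum h1
    _ ≤ ∑ c ∈ W, f c := Finset.sum_le_sum_of_subset_of_nonneg hS fun c _ _ => h0 c

/-- private colours of one side -/
theorem side_card {W : Finset ℕ} {p : Sta} (hW : ∀ σ, p σ ⊆ W) :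
    ((p false \ p true).card : ℤ) + (p true \ p false).card = ∑ c ∈ W, L p c := by
  classical
  have h1 : ∑ c ∈ W, L p c = ∑ c ∈ W, ((if c ∈ p false \ p true then (1:ℤ) else 0) +
      (if c ∈ p true \ p false then (1:ℤ) else 0)) := by
    refine Finset.sum_congr rfl fun c _ => ?_
    unfold L lB bt
    by_cases a1 : c ∈ p false <;> by_cases a2 : c ∈ p true <;> simp [a1, a2]
  rw [h1, Finset.sum_add_distrib, ← Finset.sum_filter, ← Finset.sum_filter, Finset.sum_const,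
    Finset.sum_const]
  have e1 : W.filter (fun c => c ∈ p false \ p true) = p false \ p true := by
    ext c
    rw [Finset.mem_filter]
    refine ⟨fun h => h.2, fun h => ⟨hW false (Finset.mem_sdiff.mp h).1, h⟩⟩
  have e2 : W.filter (fun c => c ∈ p true \ p false) = p true \ p false := by
    ext c
    rw [Finset.mem_filter]
    refine ⟨fun h => h.2, fun h => ⟨hW true (Finset.mem_sdiff.mp h).1, h⟩⟩
  rw [e1, e2]
  simp

theorem two_le_em {W : Finset ℕ} {p : Sta} (hW : ∀ σ, p σ ⊆ W) :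
    2 ≤ em p + ∑ c ∈ W, L p c := by
  rw [← side_card hW]
  have h1 : ∀ σ, (1 : ℤ) ≤ ei p σ + ((p σ \ p (!σ)).card : ℤ) := by
    intro σ
    unfold ei
    split_ifs with h
    · have : (0 : ℤ) ≤ ((p σ \ p (!σ)).card : ℤ) := Int.natCast_nonneg _
      linarith
    · obtain ⟨c, hc, hc'⟩ := Finset.not_subset.mp h
      have : 0 < (p σ \ p (!σ)).card := Finset.card_pos.mpr ⟨c, Finset.mem_sdiff.mpr ⟨hc, hc'⟩⟩
      have : (1 : ℤ) ≤ ((p σ \ p (!σ)).card : ℤ) := by exact_mod_cast this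
      linarith
  have a1 := h1 false
  have a2 := h1 true
  simp only [Bool.not_false, Bool.not_true] at a1 a2
  unfold em
  linarith

theorem Sat.ei {p : Sta} (hp : Sat p) (σ : Bool) : ei p σ = 0 := by
  unfold OC2.ei
  rw [if_neg]
  intro h
  obtain ⟨c, hc, hc'⟩ := hp σ
  exact hc' (h hc)

theorem Sat.em {p : Sta} (hp : Sat p) : em p = 0 := by
  unfold OC2.em
  rw [hp.ei, hp.ei]; rfl

theorem two_le_L {W : Finset ℕ} {p : Sta} (hp : Sat p) (hW : ∀ σ, p σ ⊆ W) :
    2 ≤ ∑ c ∈ W, L p c := by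
  have := two_le_em hW
  rw [hp.em] at this
  linarith

theorem mrg_sub {W : Finset ℕ} {p q : Sta} (hp : ∀ σ, p σ ⊆ W) (hq : ∀ σ, q σ ⊆ W) (y σ : Bool) :
    mrg p q y σ ⊆ W := Finset.union_subset (hp _) (hq _)

theorem L_mrg (p q : Sta) (c : ℕ) :
    L (mrg p q false) c + L (mrg p q true) c = 2 * cu p q c + ck p q c := by
  unfold L cu ck L F
  rw [bt_mrg, bt_mrg, bt_mrg, bt_mrg]
  simp only [Bool.xor_false, Bool.xor_true, Bool.not_false, Bool.not_true]
  generalize bt p c false = x1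
  generalize bt p c true = x2
  generalize bt q c false = x3
  generalize bt q c true = x4
  revert x1 x2 x3 x4
  decide

theorem cu_le_L_mrg (p q : Sta) (y : Bool) (c : ℕ) : cu p q c ≤ L (mrg p q y) c := by
  unfold L cu L F
  rw [bt_mrg, bt_mrg]
  cases y <;> simp only [Bool.xor_false, Bool.xor_true, Bool.not_false, Bool.not_true] <;>
  · generalize bt p c false = x1
    generalize bt p c true = x2
    generalize bt q c false = x3
    generalize bt q c true = x4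
    revert x1 x2 x3 x4
    decide

/-- the numerical facts for a pair of states -/
structure Nums (u1 u2 k d1 d2 e : ℤ) : Prop where
  h1 : 0 ≤ u1
  h2 : 0 ≤ u2
  h3 : 0 ≤ k
  h4 : 0 ≤ d1
  h5 : 0 ≤ d2
  h6 : 0 ≤ e
  h7 : 2 ≤ u1 + k + d1
  h8 : 2 ≤ u2 + k + d2
  h9 : 4 ≤ 2 * (u1 + u2) + k + e

theorem sumL_left (W : Finset ℕ) (p q : Sta) : ∑ c ∈ W, L p c =
    ∑ c ∈ W, L p c * F q c + ∑ c ∈ W, ck p q c + ∑ c ∈ W, L p c * D q c := by
  rw [← Finset.sum_add_distrib, ← Finset.sum_add_distrib]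
  refine Finset.sum_congr rfl fun c _ => ?_
  have := LFD q c
  unfold ck
  calc L p c = L p c * (L q c + F q c + D q c) := by rw [this, mul_one]
    _ = _ := by ring

theorem nums {W : Finset ℕ} {p q : Sta} (hp : Sat p) (hq : Sat q) (hpW : ∀ σ, p σ ⊆ W)
    (hqW : ∀ σ, q σ ⊆ W) :
    Nums (∑ c ∈ W, L p c * F q c) (∑ c ∈ W, L q c * F p c) (∑ c ∈ W, ck p q c)
      (∑ c ∈ W, L p c * D q c) (∑ c ∈ W, L q c * D p c) (e2 p q) := by
  have a1 := two_le_L hp hpW
  have a2 := two_le_L hq hqW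
  rw [sumL_left W p q] at a1
  rw [sumL_left W q p] at a2
  have ekk : ∑ c ∈ W, ck q p c = ∑ c ∈ W, ck p q c :=
    Finset.sum_congr rfl fun c _ => ck_comm _ _ _
  rw [ekk] at a2
  refine ⟨Finset.sum_nonneg fun c _ => mul_nonneg (L_nonneg _ _) (F_nonneg _ _),
    Finset.sum_nonneg fun c _ => mul_nonneg (L_nonneg _ _) (F_nonneg _ _),
    Finset.sum_nonneg fun c _ => ck_nonneg _ _ _,
    Finset.sum_nonneg fun c _ => mul_nonneg (L_nonneg _ _) (D_nonneg _ _),
    Finset.sum_nonneg fun c _ => mul_nonneg (L_nonneg _ _) (D_nonneg _ _), e2_nonneg _ _,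
    a1, a2, ?_⟩
  have b1 := two_le_em (W := W) (p := mrg p q false) (mrg_sub hpW hqW false)
  have b2 := two_le_em (W := W) (p := mrg p q true) (mrg_sub hpW hqW true)
  have b3 : ∑ c ∈ W, L (mrg p q false) c + ∑ c ∈ W, L (mrg p q true) c =
      2 * (∑ c ∈ W, L p c * F q c + ∑ c ∈ W, L q c * F p c) + ∑ c ∈ W, ck p q c := by
    rw [← Finset.sum_add_distrib, ← Finset.sum_add_distrib, Finset.mul_sum,
      ← Finset.sum_add_distrib]
    refine Finset.sum_congr rfl fun c _ => ?_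
    rw [L_mrg]
    unfold cu
    ring
  unfold e2
  linarith

theorem exc_eq (W : Finset ℕ) (p q : Sta) : exc W p q =
    2 * (∑ c ∈ W, L p c * F q c + ∑ c ∈ W, L q c * F p c) + 2 * ∑ c ∈ W, ck p q c +
      (∑ c ∈ W, L p c * D q c + ∑ c ∈ W, L q c * D p c) + e2 p q - 6 := by
  unfold exc
  rw [Finset.sum_add_distrib, Finset.sum_add_distrib, ← Finset.mul_sum, ← Finset.mul_sum]
  have h1 : ∑ c ∈ W, cu p q c = ∑ c ∈ W, L p c * F q c + ∑ c ∈ W, L q c * F p c := by
    rw [← Finset.sum_add_distrib]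
    refine Finset.sum_congr rfl fun c _ => ?_
    unfold cu; ring
  have h2 : ∑ c ∈ W, cd p q c = ∑ c ∈ W, L p c * D q c + ∑ c ∈ W, L q c * D p c := by
    rw [← Finset.sum_add_distrib]
    refine Finset.sum_congr rfl fun c _ => ?_
    unfold cd; ring
  rw [h1, h2]

theorem exc_nonneg {W : Finset ℕ} {p q : Sta} (hp : Sat p) (hq : Sat q) (hpW : ∀ σ, p σ ⊆ W)
    (hqW : ∀ σ, q σ ⊆ W) : 0 ≤ exc W p q := by
  obtain ⟨h1, h2, h3, h4, h5, h6, h7, h8, h9⟩ := nums hp hq hpW hqW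
  rw [exc_eq]
  omega

/-- lower bounds from the numbers of live colours -/
theorem exc_bounds {W : Finset ℕ} {p q : Sta} (hp : Sat p) (hq : Sat q) (hpW : ∀ σ, p σ ⊆ W)
    (hqW : ∀ σ, q σ ⊆ W) :
    (3 ≤ ∑ c ∈ W, L p c → 3 ≤ ∑ c ∈ W, L q c → 1 ≤ exc W p q) ∧
    (4 ≤ ∑ c ∈ W, L p c → 1 ≤ exc W p q) ∧ (4 ≤ ∑ c ∈ W, L q c → 1 ≤ exc W p q) ∧
    (4 ≤ ∑ c ∈ W, L p c → 3 ≤ ∑ c ∈ W, L q c → 2 ≤ exc W p q) ∧
    (3 ≤ ∑ c ∈ W, L p c → 4 ≤ ∑ c ∈ W, L q c → 2 ≤ exc W p q) ∧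
    (3 ≤ ∑ c ∈ W, kd p q c → 1 ≤ exc W p q) := by
  obtain ⟨h1, h2, h3, h4, h5, h6, h7, h8, h9⟩ := nums hp hq hpW hqW
  have ekk : ∑ c ∈ W, ck q p c = ∑ c ∈ W, ck p q c :=
    Finset.sum_congr rfl fun c _ => ck_comm _ _ _
  have ekd : ∑ c ∈ W, kd p q c = ∑ c ∈ W, ck p q c +
      (∑ c ∈ W, L p c * D q c + ∑ c ∈ W, L q c * D p c) := by
    rw [← Finset.sum_add_distrib, ← Finset.sum_add_distrib]
    refine Finset.sum_congr rfl fun c _ => ?_
    unfold kd cd; ring
  rw [exc_eq, sumL_left W p q, sumL_left W q p, ekk, ekd]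
  refine ⟨?_, ?_, ?_, ?_, ?_, ?_⟩ <;> intros <;> omega

end Pool.Agent.Helper49.OC2
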