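import Pool.Agent.Helper49.OC2.Types

/-!
# Four-sample inequality: two exceptional pairs
-/

namespace Pool.Agent.Helper49.OC2

open Finset Pool.Agent.Helper2.OC

theorem F_mrg (p q : Sta) (y : Bool) (c : ℕ) : F (mrg p q y) c = F p c * F q c := by
  unfold F
  rw [bt_mrg, bt_mrg]
  cases y <;> simp only [Bool.xor_false, Bool.xor_true, Bool.not_false, Bool.not_true] <;>
  · generalize bt p c false = x1
    generalize bt p c true = x2
    generalize bt q c false = x3
    generalize bt q c true = x4
    revert x1 x2 x3 x4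
    decide

theorem sat_of_em {p : Sta} (h : em p = 0) : Sat p := by
  intro σ
  by_contra hcon
  push Not at hcon
  have h1 : ei p σ = 1 := by
    unfold ei
    rw [if_pos]
    intro c hc
    exact hcon c hc
  have e : em p = ei p σ + ei p (!σ) := by unfold em; cases σ <;> simp [add_comm]
  have := ei_nonneg p (!σ)
  omega

theorem em_zero_of_kap {W : Finset ℕ} {p q : Sta} (hp : Sat p) (hq : Sat q) (hpW : ∀ σ, p σ ⊆ W)
    (hqW : ∀ σ, q σ ⊆ W) (h : ∑ c ∈ W, kd p q c ≤ 1) (y : Bool) : em (mrg p q y) = 0 := by
  by_contra hne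
  have h1 := em_nonneg (mrg p q y)
  have := kap_two hp hq hpW hqW (y := y) (by omega)
  omega

theorem sum_kd_ge {W : Finset ℕ} (r s : Sta) (f : ℕ → ℤ) (hf : ∀ c, 0 ≤ f c) {x : ℕ} (hx : x ∈ W)
    (h : kd r s x = 1) : f x ≤ ∑ c ∈ W, f c * kd r s c := by
  have := le_sum (W := W) (f := fun c => f c * kd r s c) (fun c => mul_nonneg (hf c) (kd_nonneg _ _ _)) hx
  simpa [h] using this

theorem kd_one_of_live {p q : Sta} {c : ℕ} (h : kd p q c = 1) : Live p c ∨ Live q c := by
  rcases kd_pos h with h | h
  · exact Or.inl h.1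
  · exact Or.inr h.1

/-- the total number of free-free colours of one pair that are live/not free in the other -/
def nn (W : Finset ℕ) (p q r s : Sta) : ℤ := ∑ c ∈ W, (F p c * F q c) * kd r s c

theorem nn_nonneg (W : Finset ℕ) (p q r s : Sta) : 0 ≤ nn W p q r s :=
  Finset.sum_nonneg fun c _ => mul_nonneg (mul_nonneg (F_nonneg _ _) (F_nonneg _ _)) (kd_nonneg _ _ _)

theorem FF_zero_or_one (p q : Sta) (c : ℕ) : F p c * F q c = 0 ∨ F p c * F q c = 1 := by
  rcases F_zero_or_one p c with h | h <;> rcases F_zero_or_one q c with h' | h' <;> simp [h, h']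

theorem nn_ge {W : Finset ℕ} {p q r s : Sta} {x : ℕ} (hx : x ∈ W) (h : kd r s x = 1)
    (hf : F p x * F q x = 1) : 1 ≤ nn W p q r s := by
  have := sum_kd_ge (W := W) r s (fun c => F p c * F q c)
    (fun c => mul_nonneg (F_nonneg _ _) (F_nonneg _ _)) hx h
  unfold nn
  simp only [hf] at this
  exact this

theorem mem_mrg_of_FF {r s : Sta} {x : ℕ} (h : F r x * F s x = 0) (y : Bool) :
    ∃ σ, x ∈ mrg r s y σ := by
  rw [← F_mrg r s y] at h
  exact mem_of_F_zero h

theorem FF_of_not_mem {r s : Sta} {x : ℕ} {y : Bool} (h : ∀ σ, x ∉ mrg r s y σ) :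
    F r x * F s x = 1 := by
  rw [← F_mrg r s y]
  exact F_eq_one_iff.mpr h

theorem not_mem_of_FF {r s : Sta} {x : ℕ} (h : F r x * F s x = 1) (y σ : Bool) :
    x ∉ mrg r s y σ := by
  rw [← F_mrg r s y] at h
  exact F_eq_one_iff.mp h σ

/-- the sum over the four combinations -/
def S4 (f : Bool → Bool → ℤ) : ℤ := f false false + f false true + f true false + f true true

theorem S4_eq (f : Bool → Bool → ℤ) (y z : Bool) :
    S4 f = f y z + f y (!z) + f (!y) z + f (!y) (!z) := by
  unfold S4
  cases y <;> cases z <;> simp <;> ring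

theorem S4_swap (f : Bool → Bool → ℤ) : S4 (fun a b => f b a) = S4 f := by
  unfold S4; ring

section

variable {W : Finset ℕ} {p q r s : Sta}

/-- all data about two pairs without empty sides -/
structure Two (W : Finset ℕ) (p q r s : Sta) : Prop where
  hp : Sat p
  hq : Sat q
  hr : Sat r
  hs : Sat s
  hpW : ∀ σ, p σ ⊆ W
  hqW : ∀ σ, q σ ⊆ W
  hrW : ∀ σ, r σ ⊆ W
  hsW : ∀ σ, s σ ⊆ W
  k1 : ∑ c ∈ W, kd p q c ≤ 1
  k2 : ∑ c ∈ W, kd r s c ≤ 1

theorem Two.symm (h : Two W p q r s) : Two W r s p q :=
  ⟨h.hr, h.hs, h.hp, h.hq, h.hrW, h.hsW, h.hpW, h.hqW, h.k2, h.k1⟩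

theorem Two.satM (h : Two W p q r s) (y : Bool) : Sat (mrg p q y) :=
  sat_of_em (em_zero_of_kap h.hp h.hq h.hpW h.hqW h.k1 y)

theorem Two.satM' (h : Two W p q r s) (y : Bool) : Sat (mrg r s y) :=
  sat_of_em (em_zero_of_kap h.hr h.hs h.hrW h.hsW h.k2 y)

theorem Two.MW (h : Two W p q r s) (y σ : Bool) : mrg p q y σ ⊆ W := mrg_sub h.hpW h.hqW y σ

theorem Two.MW' (h : Two W p q r s) (y σ : Bool) : mrg r s y σ ⊆ W := mrg_sub h.hrW h.hsW y σ

theorem Two.nonneg (h : Two W p q r s) (o o' : Bool) : 0 ≤ exc W (mrg p q o) (mrg r s o') :=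
  exc_nonneg (h.satM o) (h.satM' o') (h.MW o) (h.MW' o')

theorem three_of_type (hr : Sat r) (hs : Sat s) (hrW : ∀ σ, r σ ⊆ W) (hsW : ∀ σ, s σ ⊆ W)
    (h : ∑ c ∈ W, kd r s c = 1) : ∃ y, 3 ≤ ∑ c ∈ W, L (mrg r s y) c := by
  rcases type_one hr hs hrW hsW h with ⟨y, h1, _⟩ | ⟨y, x, a, b, h1, _⟩ | ⟨x, z, w, t, h1, _⟩
  · exact ⟨y, by linarith⟩
  · exact ⟨y, (h1.sumL (mrg_sub hrW hsW y)).ge⟩
  · exact ⟨false, (h1.sumL (mrg_sub hrW hsW false)).ge⟩

theorem caseC00 (h : Two W p q r s) (k1 : ∑ c ∈ W, kd p q c = 0) (k2 : ∑ c ∈ W, kd r s c = 0) :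
    8 ≤ S4 fun o o' => exc W (mrg p q o) (mrg r s o') := by
  have key : ∀ o o', 2 ≤ exc W (mrg p q o) (mrg r s o') := by
    intro o o'
    obtain ⟨_, _, _, b4, _, _⟩ := exc_bounds (h.satM o) (h.satM' o') (h.MW o) (h.MW' o')
    exact b4 (type_zero h.hp h.hq h.hpW h.hqW k1 o)
      (by linarith [type_zero h.hr h.hs h.hrW h.hsW k2 o'])
  unfold S4
  linarith [key false false, key false true, key true false, key true true]

theorem caseC01 (h : Two W p q r s) (k1 : ∑ c ∈ W, kd p q c = 0) (k2 : ∑ c ∈ W, kd r s c = 1) :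
    6 ≤ S4 fun o o' => exc W (mrg p q o) (mrg r s o') := by
  obtain ⟨y, hy⟩ := three_of_type h.hr h.hs h.hrW h.hsW k2
  have key1 : ∀ o, 2 ≤ exc W (mrg p q o) (mrg r s y) := by
    intro o
    obtain ⟨_, _, _, b4, _, _⟩ := exc_bounds (h.satM o) (h.satM' y) (h.MW o) (h.MW' y)
    exact b4 (type_zero h.hp h.hq h.hpW h.hqW k1 o) hy
  have key2 : ∀ o, 1 ≤ exc W (mrg p q o) (mrg r s (!y)) := by
    intro o
    obtain ⟨_, b2, _, _, _, _⟩ := exc_bounds (h.satM o) (h.satM' (!y)) (h.MW o) (h.MW' (!y))
    exact b2 (type_zero h.hp h.hq h.hpW h.hqW k1 o)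
  rw [S4_eq _ false y]
  simp only [Bool.not_false]
  linarith [key1 false, key1 true, key2 false, key2 true]

theorem caseCL (h : Two W p q r s) (hL : TyL W p q) (k2 : ∑ c ∈ W, kd r s c = 1) :
    4 ≤ S4 fun o o' => exc W (mrg p q o) (mrg r s o') := by
  obtain ⟨y, hy⟩ := three_of_type h.hr h.hs h.hrW h.hsW k2
  obtain ⟨z, hz1, hz2⟩ := hL
  obtain ⟨_, _, _, b4, _, _⟩ := exc_bounds (h.satM z) (h.satM' y) (h.MW z) (h.MW' y)
  obtain ⟨_, c2, _, _, _, _⟩ := exc_bounds (h.satM z) (h.satM' (!y)) (h.MW z) (h.MW' (!y))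
  obtain ⟨d1, _, _, _, _, _⟩ := exc_bounds (h.satM (!z)) (h.satM' y) (h.MW (!z)) (h.MW' y)
  rw [S4_eq _ z y]
  linarith [b4 hz1 hy, c2 hz1, d1 hz2 hy, h.nonneg (!z) (!y)]

theorem S4_exc_symm (p q r s : Sta) : (S4 fun o o' => exc W (mrg p q o) (mrg r s o')) =
    S4 fun o o' => exc W (mrg r s o) (mrg p q o') := by
  rw [← S4_swap]
  congr 1
  funext a b
  exact exc_comm _ _ _

theorem caseCDD (h : Two W p q r s) (h1 : TyD p q) (h2 : TyD r s) :
    4 ≤ S4 fun o o' => exc W (mrg p q o) (mrg r s o') := by
  obtain ⟨x, z, w, t, t1, t2, _⟩ := h1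
  obtain ⟨x', z', w', t', t1', t2', _⟩ := h2
  have a : ∀ o, 3 ≤ ∑ c ∈ W, L (mrg p q o) c := by
    intro o; cases o
    · exact (t1.sumL (h.MW false)).ge
    · exact (t2.sumL (h.MW true)).ge
  have a' : ∀ o, 3 ≤ ∑ c ∈ W, L (mrg r s o) c := by
    intro o; cases o
    · exact (t1'.sumL (h.MW' false)).ge
    · exact (t2'.sumL (h.MW' true)).ge
  have key : ∀ o o', 1 ≤ exc W (mrg p q o) (mrg r s o') := by
    intro o o'
    obtain ⟨b1, _⟩ := exc_bounds (h.satM o) (h.satM' o') (h.MW o) (h.MW' o')
    exact b1 (a o) (a' o')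
  unfold S4
  linarith [key false false, key false true, key true false, key true true]

/-- two states with three live colours sharing the two colours on the crowded side -/
theorem dk_aux {M N : Sta} {w x z x' a' b' : ℕ} (hM : Trip M w x z) (hN : Trip N x' a' b')
    (sM : Sat M) (sN : Sat N) (mW : ∀ σ, M σ ⊆ W) (nW : ∀ σ, N σ ⊆ W) (hx' : ∃ σ, x' ∈ M σ)
    (hw : ∀ σ, w ∉ N σ) (ha : a' = x ∨ a' = z) (hb : b' = x ∨ b' = z) : 2 ≤ exc W M N := by
  obtain ⟨h1, h2, h3, h4, h5, h6, h7, h8, h9⟩ := nums sM sN mW nW
  have v1 := hM.sumL mW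
  have v2 := hN.sumL nW
  rw [sumL_left W M N] at v1
  rw [sumL_left W N M] at v2
  have ekk : ∑ c ∈ W, ck N M c = ∑ c ∈ W, ck M N c :=
    Finset.sum_congr rfl fun c _ => ck_comm _ _ _
  rw [ekk] at v2
  rw [exc_eq]
  obtain ⟨lw, lx, lz, n1, n2, n3⟩ := hM.live
  obtain ⟨lx', la', lb', n1', n2', n3'⟩ := hN.live
  -- `w` is of type live/free
  have hu := le_sum (W := W) (f := fun c => L M c * F N c)
    (fun c => mul_nonneg (L_nonneg _ _) (F_nonneg _ _)) (lw.mem mW)
  simp only [L_eq_one lw, F_eq_one_iff.mpr hw] at hu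
  -- an empty slot
  have hab : (a' = x ∧ b' = z) ∨ (a' = z ∧ b' = x) := by
    rcases ha with h | h <;> rcases hb with h' | h'
    · exact absurd (h.trans h'.symm) n3'
    · exact Or.inl ⟨h, h'⟩
    · exact Or.inr ⟨h, h'⟩
    · exact absurd (h.trans h'.symm) n3'
  obtain ⟨s1, ⟨a1, a2⟩, ⟨a3, a4⟩, ⟨a5, a6⟩, a7, a8⟩ := hM
  obtain ⟨s2, ⟨b1, b2⟩, ⟨b3, b4⟩, ⟨b5, b6⟩, b7, b8⟩ := hN
  have hslot : 1 ≤ es M N (!s1) := by
    refine slot (t := !s2) ?_ ?_
    · intro c hc
      rcases b8 c hc with rfl | rfl | rfl
      · exact hx'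
      · rcases ha with rfl | rfl
        · exact ⟨_, a3⟩
        · exact ⟨_, a5⟩
      · rcases hb with rfl | rfl
        · exact ⟨_, a3⟩
        · exact ⟨_, a5⟩
    · intro c c1 c2
      rw [Bool.not_not] at c2
      have hl : Live M c := ⟨!s1, c1, by rw [Bool.not_not]; exact c2⟩
      have : c = x ∨ c = z := by
        rcases a8 c hl with rfl | h | h
        · exact absurd a1 c2
        · exact Or.inl h
        · exact Or.inr h
      rcases hab with ⟨rfl, rfl⟩ | ⟨rfl, rfl⟩
      · rcases this with rfl | rfl
        · exact b3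
        · exact b5
      · rcases this with rfl | rfl
        · exact b5
        · exact b3
  have e := e2_eq' M N (!s1)
  have := es_nonneg M N (!!s1)
  omega

theorem caseCDK (h : Two W p q r s) (h1 : TyD p q) (h2 : TyK r s) :
    4 ≤ 2 * nn W p q r s + S4 fun o o' => exc W (mrg p q o) (mrg r s o') := by
  obtain ⟨x, z, w, t, t1, t2, _⟩ := h1
  obtain ⟨y, x', a', b', tr, la, lb, hl, hd, hk⟩ := h2
  have a : ∀ o, 3 ≤ ∑ c ∈ W, L (mrg p q o) c := by
    intro o; cases o
    · exact (t1.sumL (h.MW false)).ge
    · exact (t2.sumL (h.MW true)).ge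
  have e1 : ∀ o, 1 ≤ exc W (mrg p q o) (mrg r s y) := by
    intro o
    obtain ⟨b1, _⟩ := exc_bounds (h.satM o) (h.satM' y) (h.MW o) (h.MW' y)
    exact b1 (a o) (tr.sumL (h.MW' y)).ge
  have e2 : ∀ o, 0 ≤ exc W (mrg p q o) (mrg r s (!y)) := fun o => h.nonneg o (!y)
  have hn := nn_nonneg W p q r s
  rw [S4_eq _ false y]
  simp only [Bool.not_false]
  rcases FF_zero_or_one p q x' with hf | hf
  · -- `x'` is used in the first pair
    by_cases c1 : exc W (mrg p q false) (mrg r s (!y)) ≤ 0
    · obtain ⟨f1, f2, f3, f4⟩ := trip_tight t1 (h.satM false) (h.satM' (!y)) (h.MW false)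
        (h.MW' (!y)) c1
      have g1 : 1 ≤ exc W (mrg p q true) (mrg r s (!y)) := by
        by_contra hcon
        obtain ⟨g1, _⟩ := trip_tight t2 (h.satM true) (h.satM' (!y)) (h.MW true)
          (h.MW' (!y)) (by omega)
        obtain ⟨σ, hσ, _⟩ := f3
        exact g1 σ hσ
      have g2 : 2 ≤ exc W (mrg p q false) (mrg r s y) :=
        dk_aux t1 tr (h.satM false) (h.satM' y) (h.MW false) (h.MW' y) (mem_mrg_of_FF hf false)
          (not_mem_of_FF (FF_of_not_mem f1) y) (f4 a' la) (f4 b' lb)
      linarith [e1 true, e2 false]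
    · by_cases c2 : exc W (mrg p q true) (mrg r s (!y)) ≤ 0
      · obtain ⟨f1, f2, f3, f4⟩ := trip_tight t2 (h.satM true) (h.satM' (!y)) (h.MW true)
          (h.MW' (!y)) c2
        have g2 : 2 ≤ exc W (mrg p q true) (mrg r s y) :=
          dk_aux t2 tr (h.satM true) (h.satM' y) (h.MW true) (h.MW' y) (mem_mrg_of_FF hf true)
            (not_mem_of_FF (FF_of_not_mem f1) y) (f4 a' la) (f4 b' lb)
        have := e1 false
        have := e2 true
        omega
      · have := e1 false
        have := e1 true
        omega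
  · have := nn_ge (W := W) (p := p) (q := q) (r := r) (s := s) (x := x')
      (by obtain ⟨hx, _⟩ := tr.live; exact hx.mem (h.MW' y)) hk hf
    linarith [e1 false, e1 true, e2 false, e2 true]

theorem caseCKK (h : Two W p q r s) (h1 : TyK p q) (h2 : TyK r s) :
    4 ≤ 2 * nn W p q r s + 2 * nn W r s p q +
      S4 fun o o' => exc W (mrg p q o) (mrg r s o') := by
  obtain ⟨y, x, a, b, tr, la, lb, hl, hd, hk⟩ := h1
  obtain ⟨y', x', a', b', tr', la', lb', hl', hd', hk'⟩ := h2
  obtain ⟨tx, ta, tb, n1, n2, n3⟩ := tr.live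
  obtain ⟨tx', ta', tb', n1', n2', n3'⟩ := tr'.live
  have v1 := tr.sumL (h.MW y)
  have v1' := tr'.sumL (h.MW' y')
  have e11 : 1 ≤ exc W (mrg p q y) (mrg r s y') := by
    obtain ⟨b1, _⟩ := exc_bounds (h.satM y) (h.satM' y') (h.MW y) (h.MW' y')
    exact b1 v1.ge v1'.ge
  have hn := nn_nonneg W p q r s
  have hn' := nn_nonneg W r s p q
  have z1 := h.nonneg y (!y')
  have z2 := h.nonneg (!y) y'
  have z3 := h.nonneg (!y) (!y')
  rw [S4_eq _ y y']
  -- consequences of `x` used in the second pair
  have useX : F r x * F s x = 0 → 1 ≤ exc W (mrg p q y) (mrg r s (!y')) := by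
    intro hf
    by_contra hcon
    obtain ⟨f1, _⟩ := trip_tight tr (h.satM y) (h.satM' (!y')) (h.MW y) (h.MW' (!y')) (by omega)
    obtain ⟨σ, hσ⟩ := mem_mrg_of_FF hf (!y')
    exact f1 σ hσ
  have useX' : F p x' * F q x' = 0 → 1 ≤ exc W (mrg p q (!y)) (mrg r s y') := by
    intro hf
    rw [exc_comm]
    by_contra hcon
    obtain ⟨f1, _⟩ := trip_tight tr' (h.satM' y') (h.satM (!y)) (h.MW' y') (h.MW (!y)) (by omega)
    obtain ⟨σ, hσ⟩ := mem_mrg_of_FF hf (!y)
    exact f1 σ hσ
  rcases FF_zero_or_one r s x with hf | hf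
  · rcases FF_zero_or_one p q x' with hf' | hf'
    · -- main case
      have g1 := useX hf
      have g2 := useX' hf'
      -- counts
      obtain ⟨sx, ⟨a1, a2⟩, ⟨a3, a4⟩, ⟨a5, a6⟩, a7, a8⟩ := id tr
      obtain ⟨sx', ⟨b1, b2⟩, ⟨b3, b4⟩, ⟨b5, b6⟩, b7, b8⟩ := id tr'
      have v2 : ∑ c ∈ W, L (mrg p q (!y)) c = 2 := by
        have l2 := two_le_L (h.satM (!y)) (h.MW (!y))
        have : ∑ c ∈ W, L (mrg p q (!y)) c ≤ 2 := by
          calc ∑ c ∈ W, L (mrg p q (!y)) c ≤ ∑ c ∈ W, ((if c = a then (1:ℤ) else 0) +
                (if c = b then (1:ℤ) else 0)) := by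
                refine Finset.sum_le_sum fun c _ => ?_
                rcases L_zero_or_one (mrg p q (!y)) c with h0 | h0
                · rw [h0]; split_ifs <;> norm_num
                · rcases hl c (live_iff.mpr h0) with rfl | rfl
                  · rw [h0, if_pos rfl]; split_ifs <;> norm_num
                  · rw [h0, if_pos rfl]; split_ifs <;> norm_num
            _ ≤ 2 := by
                rw [Finset.sum_add_distrib, Finset.sum_ite_eq', Finset.sum_ite_eq']
                split_ifs <;> norm_num
        omega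
      have v2' : ∑ c ∈ W, L (mrg r s (!y')) c = 2 := by
        have l2 := two_le_L (h.satM' (!y')) (h.MW' (!y'))
        have : ∑ c ∈ W, L (mrg r s (!y')) c ≤ 2 := by
          calc ∑ c ∈ W, L (mrg r s (!y')) c ≤ ∑ c ∈ W, ((if c = a' then (1:ℤ) else 0) +
                (if c = b' then (1:ℤ) else 0)) := by
                refine Finset.sum_le_sum fun c _ => ?_
                rcases L_zero_or_one (mrg r s (!y')) c with h0 | h0
                · rw [h0]; split_ifs <;> norm_num
                · rcases hl' c (live_iff.mpr h0) with rfl | rfl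
                  · rw [h0, if_pos rfl]; split_ifs <;> norm_num
                  · rw [h0, if_pos rfl]; split_ifs <;> norm_num
            _ ≤ 2 := by
                rw [Finset.sum_add_distrib, Finset.sum_ite_eq', Finset.sum_ite_eq']
                split_ifs <;> norm_num
        omega
      have dx : D (mrg p q (!y)) x = 1 := by
        have f0 : F (mrg p q (!y)) x = 0 := F_eq_zero (hd false)
        have l0 : L (mrg p q (!y)) x = 0 := by
          rcases L_zero_or_one (mrg p q (!y)) x with h0 | h0
          · exact h0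
          · obtain ⟨σ, _, h2⟩ := live_iff.mpr h0
            exact absurd (hd _) h2
        have := LFD (mrg p q (!y)) x
        omega
      -- the numbers of free colours do not depend on the orientations
      have uu : ∀ o o', (o = y ∨ o = !y) → ∑ c ∈ W, L (mrg p q o) c * F (mrg r s o') c =
          F r a * F s a + F r b * F s b := by
        intro o o' ho
        have hsub : ({a, b} : Finset ℕ) ⊆ W := by
          intro c hc
          simp only [Finset.mem_insert, Finset.mem_singleton] at hc
          rcases hc with rfl | rfl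
          · exact ta.mem (h.MW y)
          · exact tb.mem (h.MW y)
        rw [← Finset.sum_subset hsub]
        · rw [Finset.sum_pair n3, F_mrg, F_mrg]
          rcases ho with rfl | rfl
          · rw [L_eq_one ta, L_eq_one tb]; ring
          · rw [L_eq_one la, L_eq_one lb]; ring
        · intro c _ hc
          simp only [Finset.mem_insert, Finset.mem_singleton, not_or] at hc
          rcases L_zero_or_one (mrg p q o) c with h0 | h0
          · rw [h0, zero_mul]
          · rw [F_mrg]
            rcases ho with rfl | rfl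
            · rcases a8 c (live_iff.mpr h0) with rfl | h1 | h1
              · rw [hf, mul_zero]
              · exact absurd h1 hc.1
              · exact absurd h1 hc.2
            · rcases hl c (live_iff.mpr h0) with h1 | h1
              · exact absurd h1 hc.1
              · exact absurd h1 hc.2
      have uu' : ∀ o o', (o' = y' ∨ o' = !y') → ∑ c ∈ W, L (mrg r s o') c * F (mrg p q o) c =
          F p a' * F q a' + F p b' * F q b' := by
        intro o o' ho
        have hsub : ({a', b'} : Finset ℕ) ⊆ W := by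
          intro c hc
          simp only [Finset.mem_insert, Finset.mem_singleton] at hc
          rcases hc with rfl | rfl
          · exact ta'.mem (h.MW' y')
          · exact tb'.mem (h.MW' y')
        rw [← Finset.sum_subset hsub]
        · rw [Finset.sum_pair n3', F_mrg, F_mrg]
          rcases ho with rfl | rfl
          · rw [L_eq_one ta', L_eq_one tb']; ring
          · rw [L_eq_one la', L_eq_one lb']; ring
        · intro c _ hc
          simp only [Finset.mem_insert, Finset.mem_singleton, not_or] at hc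
          rcases L_zero_or_one (mrg r s o') c with h0 | h0
          · rw [h0, zero_mul]
          · rw [F_mrg]
            rcases ho with rfl | rfl
            · rcases b8 c (live_iff.mpr h0) with rfl | h1 | h1
              · rw [hf', mul_zero]
              · exact absurd h1 hc.1
              · exact absurd h1 hc.2
            · rcases hl' c (live_iff.mpr h0) with h1 | h1
              · exact absurd h1 hc.1
              · exact absurd h1 hc.2
      set α : ℤ := F r a * F s a + F r b * F s b with hα
      set α' : ℤ := F p a' * F q a' + F p b' * F q b' with hα'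
      have hα0 : 0 ≤ α := by
        rcases FF_zero_or_one r s a with h1 | h1 <;> rcases FF_zero_or_one r s b with h2 | h2 <;>
          rw [hα, h1, h2] <;> norm_num
      have hα0' : 0 ≤ α' := by
        rcases FF_zero_or_one p q a' with h1 | h1 <;> rcases FF_zero_or_one p q b' with h2 | h2 <;>
          rw [hα', h1, h2] <;> norm_num
      obtain ⟨-, -, p3, p4, p5, p6, p7, p8, p9⟩ :=
        nums (h.satM y) (h.satM' y') (h.MW y) (h.MW' y')
      obtain ⟨-, -, q3, q4, q5, q6, q7, q8, q9⟩ :=
        nums (h.satM y) (h.satM' (!y')) (h.MW y) (h.MW' (!y'))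
      obtain ⟨-, -, r3, r4, r5, r6, r7, r8, r9⟩ :=
        nums (h.satM (!y)) (h.satM' y') (h.MW (!y)) (h.MW' y')
      obtain ⟨-, -, s3, s4, s5, s6, s7, s8, s9⟩ :=
        nums (h.satM (!y)) (h.satM' (!y')) (h.MW (!y)) (h.MW' (!y'))
      rw [exc_eq] at e11 g1 g2 z3 ⊢
      rw [exc_eq, exc_eq, exc_eq]
      have w1 := sumL_left W (mrg p q y) (mrg r s y')
      have w2 := sumL_left W (mrg r s y') (mrg p q y)
      have w3 := sumL_left W (mrg p q y) (mrg r s (!y'))
      have w4 := sumL_left W (mrg r s (!y')) (mrg p q y)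
      have w5 := sumL_left W (mrg p q (!y)) (mrg r s y')
      have w6 := sumL_left W (mrg r s y') (mrg p q (!y))
      have w7 := sumL_left W (mrg p q (!y)) (mrg r s (!y'))
      have w8 := sumL_left W (mrg r s (!y')) (mrg p q (!y))
      have ekk : ∀ M N : Sta, ∑ c ∈ W, ck N M c = ∑ c ∈ W, ck M N c := fun M N =>
        Finset.sum_congr rfl fun c _ => ck_comm _ _ _
      rw [ekk (mrg p q y) (mrg r s y')] at w2
      rw [ekk (mrg p q y) (mrg r s (!y'))] at w4
      rw [ekk (mrg p q (!y)) (mrg r s y')] at w6
      rw [ekk (mrg p q (!y)) (mrg r s (!y'))] at w8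
      rw [v1] at w1 w3
      rw [v2] at w5 w7
      rw [v1'] at w2 w6
      rw [v2'] at w4 w8
      rw [uu y y' (Or.inl rfl)] at w1 e11 p9 ⊢
      rw [uu y (!y') (Or.inl rfl)] at w3 g1 q9 ⊢
      rw [uu (!y) y' (Or.inr rfl)] at w5 g2 r9 ⊢
      rw [uu (!y) (!y') (Or.inr rfl)] at w7 z3 s9 ⊢
      rw [uu' y y' (Or.inl rfl)] at w2 e11 p9 ⊢
      rw [uu' y (!y') (Or.inr rfl)] at w4 g1 q9 ⊢
      rw [uu' (!y) y' (Or.inl rfl)] at w6 g2 r9 ⊢
      rw [uu' (!y) (!y') (Or.inr rfl)] at w8 z3 s9 ⊢
      -- slots
      obtain ⟨τ, hτ⟩ := mem_mrg_of_FF hf y'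
      obtain ⟨τ', hτ'⟩ := mem_mrg_of_FF hf' y
      have slot1 : α' = 0 → 1 ≤ es (mrg p q y) (mrg r s y') sx := by
        intro h0
        refine slot (t := τ) ?_ ?_
        · intro c hc
          rcases b8 c hc with rfl | rfl | rfl
          · exact ⟨_, hτ'⟩
          · apply mem_mrg_of_FF
            rcases FF_zero_or_one p q c with h1 | h1 <;> rcases FF_zero_or_one p q b' with h2 | h2 <;>
              rw [hα', h1, h2] at h0 <;> omega
          · apply mem_mrg_of_FF
            rcases FF_zero_or_one p q a' with h1 | h1 <;> rcases FF_zero_or_one p q c with h2 | h2 <;>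
              rw [hα', h1, h2] at h0 <;> omega
        · intro c c1 c2
          rcases a8 c ⟨sx, c1, c2⟩ with rfl | rfl | rfl
          · exact hτ
          · exact absurd c1 a4
          · exact absurd c1 a6
      have slot2 : α = 0 → 1 ≤ e2 (mrg p q y) (mrg r s y') := by
        intro h0
        rw [e2_comm, e2_eq' _ _ sx']
        have h1 : 1 ≤ es (mrg r s y') (mrg p q y) sx' := by
          refine slot (t := τ') ?_ ?_
          · intro c hc
            rcases a8 c hc with rfl | rfl | rfl
            · exact ⟨_, hτ⟩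
            · apply mem_mrg_of_FF
              rcases FF_zero_or_one r s c with h1 | h1 <;> rcases FF_zero_or_one r s b with h2 | h2 <;>
                rw [hα, h1, h2] at h0 <;> omega
            · apply mem_mrg_of_FF
              rcases FF_zero_or_one r s a with h1 | h1 <;> rcases FF_zero_or_one r s c with h2 | h2 <;>
                rw [hα, h1, h2] at h0 <;> omega
          · intro c c1 c2
            rcases b8 c ⟨sx', c1, c2⟩ with rfl | rfl | rfl
            · exact hτ'
            · exact absurd c1 b4
            · exact absurd c1 b6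
        linarith [es_nonneg (mrg r s y') (mrg p q y) (!sx')]
      have slot1' : α' = 0 → 1 ≤ e2 (mrg p q y) (mrg r s y') := by
        intro h0
        rw [e2_eq' _ _ sx]
        linarith [slot1 h0, es_nonneg (mrg p q y) (mrg r s y') (!sx)]
      by_cases hu2 : 2 ≤ α + α'
      · omega
      by_cases hu1 : α + α' = 1
      · have : 1 ≤ e2 (mrg p q y) (mrg r s y') := by
          by_cases h0 : α = 0
          · exact slot2 h0
          · exact slot1' (by omega)
        omega
      have hz : α = 0 := by omega
      have hz' : α' = 0 := by omega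
      have nfa : F r a * F s a = 0 := by
        rcases FF_zero_or_one r s a with h1 | h1 <;> rcases FF_zero_or_one r s b with h2 | h2 <;>
          rw [hα, h1, h2] at hz <;> omega
      have nfb : F r b * F s b = 0 := by
        rcases FF_zero_or_one r s a with h1 | h1 <;> rcases FF_zero_or_one r s b with h2 | h2 <;>
          rw [hα, h1, h2] at hz <;> omega
      -- a live colour of the first merge which is not live in the second is dead there
      have dead1 : ∀ c, Live (mrg p q y) c → F r c * F s c = 0 → ¬ Live (mrg r s y') c →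
          1 ≤ ∑ c ∈ W, L (mrg p q y) c * D (mrg r s y') c := by
        intro c hc hfc hnl
        have h1 := le_sum (W := W) (f := fun c => L (mrg p q y) c * D (mrg r s y') c)
          (fun c => mul_nonneg (L_nonneg _ _) (D_nonneg _ _)) (hc.mem (h.MW y))
        have h2 : L (mrg r s y') c = 0 := by
          rcases L_zero_or_one (mrg r s y') c with h0 | h0
          · exact h0
          · exact absurd (live_iff.mpr h0) hnl
        have h3 := LFD (mrg r s y') c
        rw [h2, F_mrg, hfc] at h3
        simp only [L_eq_one hc] at h1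
        linarith
      by_cases hxx : x = x'
      · -- same lonely colour
        have : 2 ≤ e2 (mrg p q y) (mrg r s y') := by
          by_cases hab : (a = a' ∨ a = b') ∧ (b = a' ∨ b = b')
          · have t2 : 1 ≤ es (mrg p q y) (mrg r s y') (!sx) := by
              refine slot (t := !sx') ?_ ?_
              · intro c hc
                rcases b8 c hc with rfl | rfl | rfl
                · exact ⟨_, hτ'⟩
                · apply mem_mrg_of_FF
                  rcases FF_zero_or_one p q c with h1 | h1 <;> rcases FF_zero_or_one p q b' with h2 | h2 <;>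
                    rw [hα', h1, h2] at hz' <;> omega
                · apply mem_mrg_of_FF
                  rcases FF_zero_or_one p q a' with h1 | h1 <;> rcases FF_zero_or_one p q c with h2 | h2 <;>
                    rw [hα', h1, h2] at hz' <;> omega
              · intro c c1 c2
                rw [Bool.not_not] at c2
                have hlc : Live (mrg p q y) c := ⟨!sx, c1, by rw [Bool.not_not]; exact c2⟩
                have : c = a ∨ c = b := by
                  rcases a8 c hlc with rfl | h1 | h1
                  · exact absurd a1 c2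
                  · exact Or.inl h1
                  · exact Or.inr h1
                rcases this with rfl | rfl
                · rcases hab.1 with rfl | rfl
                  · exact b3
                  · exact b5
                · rcases hab.2 with rfl | rfl
                  · exact b3
                  · exact b5
            rw [e2_eq' _ _ sx]
            linarith [slot1 hz']
          · have hd1 : 1 ≤ ∑ c ∈ W, L (mrg p q y) c * D (mrg r s y') c := by
              by_cases ha' : a = a' ∨ a = b'
              · have hb' : ¬ (b = a' ∨ b = b') := fun hb => hab ⟨ha', hb⟩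
                refine dead1 b tb nfb fun hlb => ?_
                rcases b8 b hlb with h1 | h1 | h1
                · exact n2 (hxx.trans h1.symm)
                · exact hb' (Or.inl h1)
                · exact hb' (Or.inr h1)
              · refine dead1 a ta nfa fun hla => ?_
                rcases b8 a hla with h1 | h1 | h1
                · exact n1 (hxx.trans h1.symm)
                · exact ha' (Or.inl h1)
                · exact ha' (Or.inr h1)
            omega
        omega
      · by_cases hxa : x = a' ∨ x = b'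
        · -- `x` is live in the second merge and dead in the first
          have hlx : Live (mrg r s (!y')) x := by
            rcases hxa with rfl | rfl
            · exact la'
            · exact lb'
          have h1 := le_sum (W := W) (f := fun c => L (mrg r s (!y')) c * D (mrg p q (!y)) c)
            (fun c => mul_nonneg (L_nonneg _ _) (D_nonneg _ _)) (hlx.mem (h.MW' (!y')))
          simp only [L_eq_one hlx, dx] at h1
          have := slot1' hz'
          omega
        · have hd1 := dead1 x tx hf fun hlx => by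
            rcases b8 x hlx with h1 | h1 | h1
            · exact hxx h1
            · exact hxa (Or.inl h1)
            · exact hxa (Or.inr h1)
          omega
    · have := nn_ge (W := W) (p := p) (q := q) (r := r) (s := s) (x := x')
        (tx'.mem (h.MW' y')) hk' hf'
      linarith [useX hf]
  · have m1 := nn_ge (W := W) (p := r) (q := s) (r := p) (s := q) (x := x)
      (tx.mem (h.MW y)) hk hf
    rcases FF_zero_or_one p q x' with hf' | hf'
    · linarith [useX' hf']
    · have := nn_ge (W := W) (p := p) (q := q) (r := r) (s := s) (x := x')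
        (tx'.mem (h.MW' y')) hk' hf'
      linarith

/-- two exceptional pairs -/
theorem caseC (h : Two W p q r s) :
    8 ≤ 2 * ∑ c ∈ W, kd p q c + 2 * ∑ c ∈ W, kd r s c + 2 * nn W p q r s + 2 * nn W r s p q +
      S4 fun o o' => exc W (mrg p q o) (mrg r s o') := by
  have hn := nn_nonneg W p q r s
  have hn' := nn_nonneg W r s p q
  have k0 : 0 ≤ ∑ c ∈ W, kd p q c := Finset.sum_nonneg fun c _ => kd_nonneg _ _ _
  have k0' : 0 ≤ ∑ c ∈ W, kd r s c := Finset.sum_nonneg fun c _ => kd_nonneg _ _ _
  have k1 := h.k1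
  have k2 := h.k2
  by_cases c1 : ∑ c ∈ W, kd p q c = 0
  · by_cases c2 : ∑ c ∈ W, kd r s c = 0
    · have := caseC00 h c1 c2
      omega
    · have := caseC01 h c1 (by omega)
      omega
  · by_cases c2 : ∑ c ∈ W, kd r s c = 0
    · have := caseC01 h.symm c2 (by omega)
      rw [S4_exc_symm] at this
      omega
    · have d1 : ∑ c ∈ W, kd p q c = 1 := by omega
      have d2 : ∑ c ∈ W, kd r s c = 1 := by omega
      rcases type_one h.hp h.hq h.hpW h.hqW d1 with t1 | t1 | t1
      · have := caseCL h t1 d2
        omega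
      · rcases type_one h.hr h.hs h.hrW h.hsW d2 with t2 | t2 | t2
        · have := caseCL h.symm t2 d1
          rw [S4_exc_symm] at this
          omega
        · have := caseCKK h t1 t2
          omega
        · have := caseCDK h.symm t2 t1
          rw [S4_exc_symm] at this
          omega
      · rcases type_one h.hr h.hs h.hrW h.hsW d2 with t2 | t2 | t2
        · have := caseCL h.symm t2 d1
          rw [S4_exc_symm] at this
          omega
        · have := caseCDK h t1 t2
          omega
        · have := caseCDD h t1 t2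
          omega

end

end Pool.Agent.Helper49.OC2
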