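import Pool.Agent.Helper49.OC2.Mono

/-!
# Four-sample inequality: the final form
-/

namespace Pool.Agent.Helper49.OC2

open Finset Pool.Agent.Helper2.OC

/-! ### names -/

theorem fix_ext {μ m : Sta} (h : Fix1 μ m) : Ext μ m := by
  have hfs := fix_sub h
  obtain ⟨χ, h1, h2⟩ := h
  intro c
  have key : ∀ σ, c ∈ m σ → c ∉ μ σ → c ∉ m (!σ) := by
    intro σ hc hn
    rw [h1, Finset.mem_insert] at hc
    rcases hc with rfl | hc
    · exact h2 σ
    · exact absurd hc hn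
  rcases F_zero_or_one μ c with hF | hF
  · left
    obtain ⟨τ, hτ⟩ := mem_of_F_zero hF
    intro σ
    refine ⟨fun hc => ?_, fun hc => hfs σ hc⟩
    by_contra hn
    have := key σ hc hn
    by_cases ht : τ = σ
    · exact hn (ht ▸ hτ)
    · rw [bne ht] at hτ
      exact this (hfs _ hτ)
  · have hn := F_eq_one_iff.mp hF
    rcases F_zero_or_one m c with hm | hm
    · right
      obtain ⟨σ, hσ⟩ := mem_of_F_zero hm
      exact ⟨hF, L_eq_one ⟨σ, hσ, key σ hσ (hn σ)⟩⟩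
    · left
      have hm' := F_eq_one_iff.mp hm
      intro σ
      exact ⟨fun hc => absurd hc (hm' σ), fun hc => absurd hc (hn σ)⟩

/-- name indicator -/
def nm (μ m : Sta) (c : ℕ) : ℤ := F μ c - F m c

theorem ext_F {μ m : Sta} (h : Ext μ m) (c : ℕ) :
    F m c = F μ c - nm μ m c ∧ L m c = L μ c + nm μ m c ∧ D m c = D μ c ∧
      (nm μ m c = 0 ∨ nm μ m c = 1 ∧ F μ c = 1 ∧ L μ c = 0 ∧ D μ c = 0) := by
  have e1 := LFD μ c
  have e2 := LFD m c
  unfold nm
  rcases h c with h | ⟨h1, h2⟩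
  · have e : ∀ σ, bt m c σ = bt μ c σ := fun σ => by unfold bt; simp [h σ]
    have eL : L m c = L μ c := by unfold L; rw [e, e]
    have eF : F m c = F μ c := by unfold F; rw [e, e]
    have eD : D m c = D μ c := by unfold D; rw [e, e]
    refine ⟨by ring, by rw [eL, eF]; ring, eD, Or.inl (by rw [eF]; ring)⟩
  · have a1 := L_nonneg μ c
    have a2 := D_nonneg μ c
    have a3 := F_nonneg m c
    have a4 := D_nonneg m c
    refine ⟨by ring, by omega, by omega, Or.inr ⟨by omega, h1, by omega, by omega⟩⟩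

theorem point_names {μ m μ' m' : Sta} (h : Ext μ m) (h' : Ext μ' m') (c : ℕ) :
    2 * cu m m' c + 2 * ck m m' c + cd m m' c =
      2 * cu μ μ' c + 2 * ck μ μ' c + cd μ μ' c + nm μ m c * (2 * F μ' c + D μ' c) +
        nm μ' m' c * (2 * F μ c + D μ c) - 2 * (nm μ m c * nm μ' m' c) := by
  obtain ⟨a1, a2, a3, a4⟩ := ext_F h c
  obtain ⟨b1, b2, b3, b4⟩ := ext_F h' c
  have e1 := LFD μ c
  have e2 := LFD μ' c
  unfold cu ck cd
  rw [a1, a2, a3, b1, b2, b3]
  rcases a4 with a4 | ⟨a4, a5, a6, a7⟩ <;> rcases b4 with b4 | ⟨b4, b5, b6, b7⟩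
  · rw [a4, b4]; ring
  · rw [a4, b4, b5, b6, b7]; ring
  · rw [a4, b4, a5, a6, a7]; ring
  · rw [a4, b4, a5, a6, a7, b5, b6, b7]; ring

/-! ### the colour part -/

/-- live / free / dead indicators of a status -/
def sL (t : Fin 3) : ℤ := if t = 1 then 1 else 0
/-- free -/
def sF (t : Fin 3) : ℤ := if t = 0 then 1 else 0
/-- dead -/
def sD (t : Fin 3) : ℤ := if t = 2 then 1 else 0

theorem stt_bits (c : ℕ) (p : Sta) : L p c = sL (stt c p) ∧ F p c = sF (stt c p) ∧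
    D p c = sD (stt c p) := by
  unfold L F D lB fB dB bt stt sL sF sD
  by_cases h1 : c ∈ p false <;> by_cases h2 : c ∈ p true <;> simp [h1, h2]

/-- live in the merge, summed over the two orientations -/
def mL (a b : Fin 3) : ℤ := 2 * (sL a * sF b + sF a * sL b) + sL a * sL b
/-- free in the merge -/
def mF (a b : Fin 3) : ℤ := sF a * sF b
/-- live in one, not free in the other -/
def sk (a b : Fin 3) : ℤ := sL a * sL b + (sL a * sD b + sD a * sL b)

/-- the colour part of the pairing-local inequality -/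
def RR (a b c d : Fin 3) : ℤ :=
  2 * sk a b + 2 * sk c d + 2 * (mF a b * sk c d) + 2 * (mF c d * sk a b) +
    (2 * (2 * mL a b * mF c d + 2 * mF a b * mL c d) + 2 * (mL a b * mL c d) +
      (mL a b * (2 - mL c d - 2 * mF c d) + (2 - mL a b - 2 * mF a b) * mL c d))

theorem kd_stt (p q : Sta) (c : ℕ) : kd p q c = sk (stt c p) (stt c q) := by
  obtain ⟨a1, _, a3⟩ := stt_bits c p
  obtain ⟨b1, _, b3⟩ := stt_bits c q
  unfold kd ck cd sk
  rw [a1, a3, b1, b3]

theorem colour_part (p q r s : Sta) (c : ℕ) :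
    2 * kd p q c + 2 * kd r s c + 2 * (F p c * F q c * kd r s c) + 2 * (F r c * F s c * kd p q c) +
      (S4 fun o o' => 2 * cu (mrg p q o) (mrg r s o') c + 2 * ck (mrg p q o) (mrg r s o') c +
        cd (mrg p q o) (mrg r s o') c) = RR (stt c p) (stt c q) (stt c r) (stt c s) := by
  have l1 := L_mrg p q c
  have l2 := L_mrg r s c
  have f1 := F_mrg p q false c
  have f2 := F_mrg p q true c
  have f3 := F_mrg r s false c
  have f4 := F_mrg r s true c
  have t1 := LFD (mrg p q false) c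
  have t2 := LFD (mrg p q true) c
  have t3 := LFD (mrg r s false) c
  have t4 := LFD (mrg r s true) c
  have d1 : D (mrg p q false) c = 1 - L (mrg p q false) c - F p c * F q c := by
    rw [← f1]; linarith
  have d2 : D (mrg p q true) c = 1 - L (mrg p q true) c - F p c * F q c := by
    rw [← f2]; linarith
  have d3 : D (mrg r s false) c = 1 - L (mrg r s false) c - F r c * F s c := by
    rw [← f3]; linarith
  have d4 : D (mrg r s true) c = 1 - L (mrg r s true) c - F r c * F s c := by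
    rw [← f4]; linarith
  have e1 : L (mrg p q true) c = (2 * cu p q c + ck p q c) - L (mrg p q false) c := by linarith
  have e2 : L (mrg r s true) c = (2 * cu r s c + ck r s c) - L (mrg r s false) c := by linarith
  obtain ⟨a1, a2, a3⟩ := stt_bits c p
  obtain ⟨b1, b2, b3⟩ := stt_bits c q
  obtain ⟨c1, c2, c3⟩ := stt_bits c r
  obtain ⟨g1, g2, g3⟩ := stt_bits c s
  have m1 : 2 * cu p q c + ck p q c = mL (stt c p) (stt c q) := by
    unfold cu ck mL; rw [a1, a2, b1, b2]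
  have m2 : 2 * cu r s c + ck r s c = mL (stt c r) (stt c s) := by
    unfold cu ck mL; rw [c1, c2, g1, g2]
  have m3 : F p c * F q c = mF (stt c p) (stt c q) := by unfold mF; rw [a2, b2]
  have m4 : F r c * F s c = mF (stt c r) (stt c s) := by unfold mF; rw [c2, g2]
  rw [m1] at e1
  rw [m2] at e2
  rw [m3] at d1 d2 f1 f2
  rw [m4] at d3 d4 f3 f4
  rw [kd_stt, kd_stt, m3, m4]
  unfold S4 cu ck cd RR
  dsimp only
  rw [d1, d2, d3, d4, f1, f2, f3, f4, e1, e2]
  ring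

/-- number of live statuses -/
def nL (t : Fin 4 → Fin 3) : ℕ := (Finset.univ.filter fun i => t i = 1).card
/-- number of dead statuses -/
def nD (t : Fin 4 → Fin 3) : ℕ := (Finset.univ.filter fun i => t i = 2).card

set_option maxRecDepth 100000 in
theorem perm_sum : ∀ t : Fin 4 → Fin 3,
    (∑ σ : Equiv.Perm (Fin 4), RR (t (σ 0)) (t (σ 1)) (t (σ 2)) (t (σ 3))) * ((nL t : ℤ) + nD t) =
      192 * (nL t : ℤ) := by
  decide +kernel

/-! ### the final form -/

/-- four-sample expression; in contrast to `T4` the payoff of a name may depend on the status of the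
colour in the MERGED other pair (before the new vertices) -/
noncomputable def T4a (g : Fin 3 → Fin 3 → Fin 3 → Fin 3 → ℝ) (Λ : Fin 3 → Fin 3 → Fin 3 → ℝ)
    (κ : ℝ) (k : Comp → Comp → ℝ) (P : Finset ℕ) (s : Fin 4 → Comp) (σ : Equiv.Perm (Fin 4))
    (o o' : Bool) (f f' : Comp) : ℝ :=
  ∑ c ∈ P, g (stt c (s 0)) (stt c (s 1)) (stt c (s 2)) (stt c (s 3)) +
  (∑ c ∈ nw (mrg (s (σ 0)) (s (σ 1)) o) f, Λ (stt c (s (σ 2))) (stt c (s (σ 3)))
    (stt c (mrg (s (σ 2)) (s (σ 3)) o'))) / 2 +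
  (∑ c ∈ nw (mrg (s (σ 2)) (s (σ 3)) o') f', Λ (stt c (s (σ 0))) (stt c (s (σ 1)))
    (stt c (mrg (s (σ 0)) (s (σ 1)) o))) / 2 -
  κ * ((nw (mrg (s (σ 0)) (s (σ 1)) o) f ∩ nw (mrg (s (σ 2)) (s (σ 3)) o') f').card : ℝ) +
  k f f'

/-- POINTWISE four-sample inequality, orientation dependent name payoffs. -/
def FourIneqA (g : Fin 3 → Fin 3 → Fin 3 → Fin 3 → ℝ) (Λ : Fin 3 → Fin 3 → Fin 3 → ℝ) (κ : ℝ)
    (k : Comp → Comp → ℝ) : Prop :=
  ∀ s : Fin 4 → Comp, (∀ i, (s i).Ok) →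
  ∀ f f' : Equiv.Perm (Fin 4) → Bool → Bool → Comp,
    (∀ σ o o', Fix1 (mrg (s (σ 0)) (s (σ 1)) o) (f σ o o')) →
    (∀ σ o o', Fix1 (mrg (s (σ 2)) (s (σ 3)) o') (f' σ o o')) →
  ∀ P : Finset ℕ, (∀ i τ, s i τ ⊆ P) → (∀ σ o o' τ, f σ o o' τ ⊆ P) →
    (∀ σ o o' τ, f' σ o o' τ ⊆ P) →
    96 + 8 * ∑ i, ∑ j, (if i ≠ j then k (s i) (s j) else 0) ≤
      ∑ σ : Equiv.Perm (Fin 4), ∑ o : Bool, ∑ o' : Bool, T4a g Λ κ k P s σ o o' (f σ o o') (f' σ o o')

/-- number of live statuses among four -/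
def cnt (v a b c d : Fin 3) : ℕ :=
  (if a = v then 1 else 0) + (if b = v then 1 else 0) + (if c = v then 1 else 0) +
    (if d = v then 1 else 0)

/-- `l / (4 (l + d))` -/
noncomputable def gT2 (a b c d : Fin 3) : ℝ :=
  (cnt 1 a b c d : ℝ) / (4 * ((cnt 1 a b c d : ℝ) + cnt 2 a b c d))

/-- the payoff of a name with statuses `a`, `b` in the two other components and `m` in their merge -/
noncomputable def LT2 (a b m : Fin 3) : ℝ := ((2 * sF m + sD m + 1 - sk a b : ℤ) : ℝ) / 4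

/-- an eighth of the number of empty sides of the two merges -/
noncomputable def kT2 (p q : Comp) : ℝ := (e2 p q : ℝ) / 8

theorem perm_pairs (h : Fin 4 → Fin 4 → ℤ) :
    ∑ σ : Equiv.Perm (Fin 4), h (σ 0) (σ 1) = 2 * ∑ i, ∑ j, (if i ≠ j then h i j else 0) := by
  have hc : ∀ i j : Fin 4, (Finset.univ.filter fun σ : Equiv.Perm (Fin 4) => σ 0 = i ∧ σ 1 = j).card =
      if i ≠ j then 2 else 0 := by decide +kernel
  have h1 : ∀ σ : Equiv.Perm (Fin 4), h (σ 0) (σ 1) =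
      ∑ i, ∑ j, (if σ 0 = i ∧ σ 1 = j then h i j else 0) := by
    intro σ
    rw [Finset.sum_eq_single (σ 0), Finset.sum_eq_single (σ 1)]
    · simp
    · intro j _ hj
      rw [if_neg]
      exact fun h => hj h.2.symm
    · intro h; exact absurd (Finset.mem_univ _) h
    · intro i _ hi
      refine Finset.sum_eq_zero fun j _ => ?_
      rw [if_neg]
      exact fun h => hi h.1.symm
    · intro h; exact absurd (Finset.mem_univ _) h
  rw [Finset.sum_congr rfl fun σ _ => h1 σ, Finset.sum_comm, Finset.mul_sum]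
  refine Finset.sum_congr rfl fun i _ => ?_
  rw [Finset.sum_comm, Finset.mul_sum]
  refine Finset.sum_congr rfl fun j _ => ?_
  rw [← Finset.sum_filter, Finset.sum_const, hc i j]
  split_ifs
  · simp
  · simp

theorem perm_pairs' (h : Fin 4 → Fin 4 → ℤ) :
    ∑ σ : Equiv.Perm (Fin 4), h (σ 2) (σ 3) = 2 * ∑ i, ∑ j, (if i ≠ j then h i j else 0) := by
  have hc : ∀ i j : Fin 4, (Finset.univ.filter fun σ : Equiv.Perm (Fin 4) => σ 2 = i ∧ σ 3 = j).card =
      if i ≠ j then 2 else 0 := by decide +kernel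
  have h1 : ∀ σ : Equiv.Perm (Fin 4), h (σ 2) (σ 3) =
      ∑ i, ∑ j, (if σ 2 = i ∧ σ 3 = j then h i j else 0) := by
    intro σ
    rw [Finset.sum_eq_single (σ 2), Finset.sum_eq_single (σ 3)]
    · simp
    · intro j _ hj
      rw [if_neg]
      exact fun h => hj h.2.symm
    · intro h; exact absurd (Finset.mem_univ _) h
    · intro i _ hi
      refine Finset.sum_eq_zero fun j _ => ?_
      rw [if_neg]
      exact fun h => hi h.1.symm
    · intro h; exact absurd (Finset.mem_univ _) h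
  rw [Finset.sum_congr rfl fun σ _ => h1 σ, Finset.sum_comm, Finset.mul_sum]
  refine Finset.sum_congr rfl fun i _ => ?_
  rw [Finset.sum_comm, Finset.mul_sum]
  refine Finset.sum_congr rfl fun j _ => ?_
  rw [← Finset.sum_filter, Finset.sum_const, hc i j]
  split_ifs
  · simp
  · simp

/-- name terms of one combination -/
def NT (W : Finset ℕ) (p q r s : Sta) (o o' : Bool) (f f' : Sta) : ℤ :=
  ∑ c ∈ W, (nm (mrg p q o) f c * (2 * F (mrg r s o') c + D (mrg r s o') c + 1 - kd r s c) +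
    nm (mrg r s o') f' c * (2 * F (mrg p q o) c + D (mrg p q o) c + 1 - kd p q c) -
    2 * (nm (mrg p q o) f c * nm (mrg r s o') f' c)) + e2 f f'

theorem S4_add (f g : Bool → Bool → ℤ) : S4 (fun a b => f a b + g a b) = S4 f + S4 g := by
  unfold S4; ring

theorem S4_sum (W : Finset ℕ) (f : ℕ → Bool → Bool → ℤ) :
    (S4 fun a b => ∑ c ∈ W, f c a b) = ∑ c ∈ W, S4 (f c) := by
  unfold S4
  rw [Finset.sum_add_distrib, Finset.sum_add_distrib, Finset.sum_add_distrib]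

/-- the pairing-local inequality, colour by colour -/
theorem local_ineq' {W : Finset ℕ} {p q r s : Sta} {m m' : Bool → Bool → Sta}
    (hp : Sat p) (hq : Sat q) (hr : Sat r) (hs : Sat s) (hpW : ∀ σ, p σ ⊆ W)
    (hqW : ∀ σ, q σ ⊆ W) (hrW : ∀ σ, r σ ⊆ W) (hsW : ∀ σ, s σ ⊆ W)
    (hm : ∀ o o', Fix1 (mrg p q o) (m o o')) (hm' : ∀ o o', Fix1 (mrg r s o') (m' o o'))
    (hmW : ∀ o o' σ, m o o' σ ⊆ W) (hmW' : ∀ o o' σ, m' o o' σ ⊆ W) :
    32 + 2 * e2 p q + 2 * e2 r s ≤ ∑ c ∈ W, RR (stt c p) (stt c q) (stt c r) (stt c s) +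
      S4 fun o o' => NT W p q r s o o' (m o o') (m' o o') := by
  have h1 := local_ineq hp hq hr hs hpW hqW hrW hsW hm hm' hmW hmW'
  have h2 : ∀ o o', YY W p q r s m m' o o' =
      (∑ c ∈ W, (2 * cu (mrg p q o) (mrg r s o') c + 2 * ck (mrg p q o) (mrg r s o') c +
        cd (mrg p q o) (mrg r s o') c) + NT W p q r s o o' (m o o') (m' o o')) +
        (-6 - em (mrg p q o) - em (mrg r s o')) := by
    intro o o'
    unfold YY exc gg NT
    rw [Finset.sum_congr rfl fun c _ => point_names (fix_ext (hm o o')) (fix_ext (hm' o o')) c]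
    have e : ∀ (X Y Z T U : ℤ), X + Y = Z + T → X + Y + U = Z + T + U := fun _ _ _ _ _ h => by
      rw [h]
    have hs : ∑ c ∈ W, (2 * cu (mrg p q o) (mrg r s o') c + 2 * ck (mrg p q o) (mrg r s o') c +
        cd (mrg p q o) (mrg r s o') c + nm (mrg p q o) (m o o') c *
          (2 * F (mrg r s o') c + D (mrg r s o') c) + nm (mrg r s o') (m' o o') c *
          (2 * F (mrg p q o) c + D (mrg p q o) c) -
          2 * (nm (mrg p q o) (m o o') c * nm (mrg r s o') (m' o o') c)) +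
        ∑ c ∈ W, (F (mrg p q o) c - F (m o o') c) * (1 - kd r s c) +
        ∑ c ∈ W, (F (mrg r s o') c - F (m' o o') c) * (1 - kd p q c) =
        ∑ c ∈ W, (2 * cu (mrg p q o) (mrg r s o') c + 2 * ck (mrg p q o) (mrg r s o') c +
          cd (mrg p q o) (mrg r s o') c) +
        ∑ c ∈ W, (nm (mrg p q o) (m o o') c * (2 * F (mrg r s o') c + D (mrg r s o') c + 1 -
          kd r s c) + nm (mrg r s o') (m' o o') c * (2 * F (mrg p q o) c + D (mrg p q o) c + 1 -
          kd p q c) - 2 * (nm (mrg p q o) (m o o') c * nm (mrg r s o') (m' o o') c)) := by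
      rw [← Finset.sum_add_distrib, ← Finset.sum_add_distrib, ← Finset.sum_add_distrib]
      refine Finset.sum_congr rfl fun c _ => ?_
      unfold nm
      ring
    linarith
  have h3 : S4 (YY W p q r s m m') =
      ∑ c ∈ W, (S4 fun o o' => 2 * cu (mrg p q o) (mrg r s o') c +
        2 * ck (mrg p q o) (mrg r s o') c + cd (mrg p q o) (mrg r s o') c) +
      (S4 fun o o' => NT W p q r s o o' (m o o') (m' o o')) +
      (-24 - 2 * e2 p q - 2 * e2 r s) := by
    have e1 : YY W p q r s m m' = fun o o' =>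
        (∑ c ∈ W, (2 * cu (mrg p q o) (mrg r s o') c + 2 * ck (mrg p q o) (mrg r s o') c +
        cd (mrg p q o) (mrg r s o') c) + NT W p q r s o o' (m o o') (m' o o')) +
        (-6 - em (mrg p q o) - em (mrg r s o')) := by
      funext o o'
      exact h2 o o'
    rw [e1, S4_add, S4_add, S4_sum W fun c o o' => 2 * cu (mrg p q o) (mrg r s o') c +
        2 * ck (mrg p q o) (mrg r s o') c + cd (mrg p q o) (mrg r s o') c]
    have e3 : (S4 fun o o' => -6 - em (mrg p q o) - em (mrg r s o')) =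
        -24 - 2 * e2 p q - 2 * e2 r s := by
      unfold S4 e2
      ring
    rw [e3]
  rw [h3] at h1
  have h4 : ∑ c ∈ W, RR (stt c p) (stt c q) (stt c r) (stt c s) =
      2 * ∑ c ∈ W, kd p q c + 2 * ∑ c ∈ W, kd r s c + 2 * nn W p q r s + 2 * nn W r s p q +
      ∑ c ∈ W, (S4 fun o o' => 2 * cu (mrg p q o) (mrg r s o') c +
        2 * ck (mrg p q o) (mrg r s o') c + cd (mrg p q o) (mrg r s o') c) := by
    unfold nn
    rw [Finset.mul_sum, Finset.mul_sum, Finset.mul_sum, Finset.mul_sum, ← Finset.sum_add_distrib,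
      ← Finset.sum_add_distrib, ← Finset.sum_add_distrib, ← Finset.sum_add_distrib]
    exact Finset.sum_congr rfl fun c _ => (colour_part p q r s c).symm
  rw [h4]
  linarith

/-- the inequality summed over all orders -/
theorem four_int (W : Finset ℕ) (s : Fin 4 → Sta) (hs : ∀ i, Sat (s i))
    (hW : ∀ i τ, s i τ ⊆ W) (f f' : Equiv.Perm (Fin 4) → Bool → Bool → Sta)
    (hf : ∀ σ o o', Fix1 (mrg (s (σ 0)) (s (σ 1)) o) (f σ o o'))
    (hf' : ∀ σ o o', Fix1 (mrg (s (σ 2)) (s (σ 3)) o') (f' σ o o'))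
    (hfW : ∀ σ o o' τ, f σ o o' τ ⊆ W) (hfW' : ∀ σ o o' τ, f' σ o o' τ ⊆ W) :
    768 + 8 * ∑ i, ∑ j, (if i ≠ j then e2 (s i) (s j) else 0) ≤
      ∑ c ∈ W, ∑ σ : Equiv.Perm (Fin 4), RR (stt c (s (σ 0))) (stt c (s (σ 1))) (stt c (s (σ 2)))
        (stt c (s (σ 3))) +
      ∑ σ : Equiv.Perm (Fin 4), S4 fun o o' => NT W (s (σ 0)) (s (σ 1)) (s (σ 2)) (s (σ 3)) o o'
        (f σ o o') (f' σ o o') := by
  have h1 := Finset.sum_le_sum fun (σ : Equiv.Perm (Fin 4)) (_ : σ ∈ Finset.univ) =>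
    local_ineq' (hs (σ 0)) (hs (σ 1)) (hs (σ 2)) (hs (σ 3)) (hW _) (hW _) (hW _) (hW _)
      (hf σ) (hf' σ) (hfW σ) (hfW' σ)
  rw [Finset.sum_add_distrib, Finset.sum_add_distrib, Finset.sum_add_distrib, ← Finset.mul_sum,
    ← Finset.mul_sum, perm_pairs fun i j => e2 (s i) (s j), perm_pairs' fun i j => e2 (s i) (s j),
    Finset.sum_const, Finset.sum_comm (s := Finset.univ) (t := W)] at h1
  have hcard : (Finset.univ : Finset (Equiv.Perm (Fin 4))).card = 24 := by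
    rw [Finset.card_univ, Fintype.card_perm, Fintype.card_fin]
    rfl
  rw [hcard] at h1
  have e : (24 • 32 : ℤ) = 768 := by norm_num
  rw [e] at h1
  linarith

theorem nm_eq {μ m : Sta} (h : ∀ σ, μ σ ⊆ m σ) (c : ℕ) :
    nm μ m c = if c ∈ nw μ m then 1 else 0 := by
  unfold nm nw
  have ha := h false
  have hb := h true
  by_cases h1 : c ∈ μ false ∪ μ true
  · rw [if_neg fun hc => (Finset.mem_sdiff.mp hc).2 h1]
    have e1 : F μ c = 0 := by
      rcases Finset.mem_union.mp h1 with h1 | h1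
      · exact F_eq_zero h1
      · exact F_eq_zero h1
    have e2 : F m c = 0 := by
      rcases Finset.mem_union.mp h1 with h1 | h1
      · exact F_eq_zero (ha h1)
      · exact F_eq_zero (hb h1)
    rw [e1, e2]; rfl
  · have e1 : F μ c = 1 := F_eq_one_iff.mpr fun σ hσ => h1 (by
      cases σ
      · exact Finset.mem_union_left _ hσ
      · exact Finset.mem_union_right _ hσ)
    by_cases h2 : c ∈ m false ∪ m true
    · rw [if_pos (Finset.mem_sdiff.mpr ⟨h2, h1⟩)]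
      have e2 : F m c = 0 := by
        rcases Finset.mem_union.mp h2 with h2 | h2
        · exact F_eq_zero h2
        · exact F_eq_zero h2
      rw [e1, e2]; rfl
    · rw [if_neg fun hc => h2 (Finset.mem_sdiff.mp hc).1]
      have e2 : F m c = 1 := F_eq_one_iff.mpr fun σ hσ => h2 (by
        cases σ
        · exact Finset.mem_union_left _ hσ
        · exact Finset.mem_union_right _ hσ)
      rw [e1, e2]; rfl

theorem nw_sub {W : Finset ℕ} {μ m : Sta} (hW : ∀ σ, m σ ⊆ W) : nw μ m ⊆ W := by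
  intro c hc
  rcases Finset.mem_union.mp (Finset.mem_sdiff.mp hc).1 with h | h
  · exact hW _ h
  · exact hW _ h

theorem sum_nm {W : Finset ℕ} {μ m : Sta} (h : ∀ σ, μ σ ⊆ m σ) (hW : ∀ σ, m σ ⊆ W)
    (X : ℕ → ℤ) : ∑ c ∈ W, nm μ m c * X c = ∑ c ∈ nw μ m, X c := by
  rw [← Finset.sum_subset (nw_sub (μ := μ) hW)]
  · refine Finset.sum_congr rfl fun c hc => ?_
    rw [nm_eq h, if_pos hc, one_mul]
  · intro c _ hc
    rw [nm_eq h, if_neg hc, zero_mul]

theorem sum_nm_nm {W : Finset ℕ} {μ m μ' m' : Sta} (h : ∀ σ, μ σ ⊆ m σ) (h' : ∀ σ, μ' σ ⊆ m' σ)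
    (hW : ∀ σ, m σ ⊆ W) :
    ∑ c ∈ W, nm μ m c * nm μ' m' c = ((nw μ m ∩ nw μ' m').card : ℤ) := by
  rw [sum_nm h hW fun c => nm μ' m' c]
  rw [Finset.sum_congr rfl fun c _ => nm_eq h' c, ← Finset.sum_filter, Finset.sum_const]
  rw [Finset.filter_mem_eq_inter]
  simp

set_option maxRecDepth 100000 in
theorem perm_sum0 : ∀ t : Fin 4 → Fin 3,
    (cnt 1 (t 0) (t 1) (t 2) (t 3) + cnt 2 (t 0) (t 1) (t 2) (t 3) = 0 →
      ∑ σ : Equiv.Perm (Fin 4), RR (t (σ 0)) (t (σ 1)) (t (σ 2)) (t (σ 3)) = 0) ∧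
    (∑ σ : Equiv.Perm (Fin 4), RR (t (σ 0)) (t (σ 1)) (t (σ 2)) (t (σ 3))) *
      ((cnt 1 (t 0) (t 1) (t 2) (t 3) : ℤ) + cnt 2 (t 0) (t 1) (t 2) (t 3)) =
      192 * (cnt 1 (t 0) (t 1) (t 2) (t 3) : ℤ) := by
  decide +kernel

theorem perm_sum_real (t : Fin 4 → Fin 3) :
    ((∑ σ : Equiv.Perm (Fin 4), RR (t (σ 0)) (t (σ 1)) (t (σ 2)) (t (σ 3)) : ℤ) : ℝ) =
      768 * gT2 (t 0) (t 1) (t 2) (t 3) := by
  obtain ⟨h1, h2⟩ := perm_sum0 t
  unfold gT2
  set a := cnt 1 (t 0) (t 1) (t 2) (t 3) with ha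
  set b := cnt 2 (t 0) (t 1) (t 2) (t 3) with hb
  by_cases h0 : a + b = 0
  · rw [h1 h0]
    have ha0 : a = 0 := by omega
    rw [ha0]
    simp
  · have h3 : ((∑ σ : Equiv.Perm (Fin 4), RR (t (σ 0)) (t (σ 1)) (t (σ 2)) (t (σ 3)) : ℤ) : ℝ) *
        ((a : ℝ) + b) = 192 * a := by exact_mod_cast h2
    have h4 : (a : ℝ) + b ≠ 0 := by
      have : (0 : ℝ) < ((a + b : ℕ) : ℝ) := by exact_mod_cast Nat.pos_of_ne_zero h0
      push_cast at this
      exact this.ne'
    rw [eq_div_of_mul_eq h4 h3]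
    field_simp
    ring

/-- `8 T4a` -/
theorem eight_T4a {W : Finset ℕ} {s : Fin 4 → Comp} {σ : Equiv.Perm (Fin 4)} {o o' : Bool}
    {f f' : Comp} (hf : Fix1 (mrg (s (σ 0)) (s (σ 1)) o) f)
    (hf' : Fix1 (mrg (s (σ 2)) (s (σ 3)) o') f') (hfW : ∀ τ, f τ ⊆ W) (hfW' : ∀ τ, f' τ ⊆ W) :
    8 * T4a gT2 LT2 (1 / 4) kT2 W s σ o o' f f' =
      8 * ∑ c ∈ W, gT2 (stt c (s 0)) (stt c (s 1)) (stt c (s 2)) (stt c (s 3)) +
      ((NT W (s (σ 0)) (s (σ 1)) (s (σ 2)) (s (σ 3)) o o' f f' : ℤ) : ℝ) := by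
  have e1 := sum_nm (fix_sub hf) hfW fun c => 2 * F (mrg (s (σ 2)) (s (σ 3)) o') c +
    D (mrg (s (σ 2)) (s (σ 3)) o') c + 1 - kd (s (σ 2)) (s (σ 3)) c
  have e2' := sum_nm (fix_sub hf') hfW' fun c => 2 * F (mrg (s (σ 0)) (s (σ 1)) o) c +
    D (mrg (s (σ 0)) (s (σ 1)) o) c + 1 - kd (s (σ 0)) (s (σ 1)) c
  have e3 := sum_nm_nm (fix_sub hf) (fix_sub hf') hfW
  have hN : NT W (s (σ 0)) (s (σ 1)) (s (σ 2)) (s (σ 3)) o o' f f' =
      ∑ c ∈ nw (mrg (s (σ 0)) (s (σ 1)) o) f, (2 * F (mrg (s (σ 2)) (s (σ 3)) o') c +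
        D (mrg (s (σ 2)) (s (σ 3)) o') c + 1 - kd (s (σ 2)) (s (σ 3)) c) +
      ∑ c ∈ nw (mrg (s (σ 2)) (s (σ 3)) o') f', (2 * F (mrg (s (σ 0)) (s (σ 1)) o) c +
        D (mrg (s (σ 0)) (s (σ 1)) o) c + 1 - kd (s (σ 0)) (s (σ 1)) c) -
      2 * ((nw (mrg (s (σ 0)) (s (σ 1)) o) f ∩ nw (mrg (s (σ 2)) (s (σ 3)) o') f').card : ℤ) +
      OC2.e2 f f' := by
    unfold NT
    rw [Finset.sum_sub_distrib, Finset.sum_add_distrib, ← Finset.mul_sum, e1, e2', e3]
  rw [hN]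
  unfold T4a LT2 kT2
  have g1 : ∀ c, (2 * F (mrg (s (σ 2)) (s (σ 3)) o') c + D (mrg (s (σ 2)) (s (σ 3)) o') c + 1 -
      kd (s (σ 2)) (s (σ 3)) c) = 2 * sF (stt c (mrg (s (σ 2)) (s (σ 3)) o')) +
      sD (stt c (mrg (s (σ 2)) (s (σ 3)) o')) + 1 - sk (stt c (s (σ 2))) (stt c (s (σ 3))) := by
    intro c
    rw [kd_stt, (stt_bits c (mrg (s (σ 2)) (s (σ 3)) o')).2.1,
      (stt_bits c (mrg (s (σ 2)) (s (σ 3)) o')).2.2]
  have g2 : ∀ c, (2 * F (mrg (s (σ 0)) (s (σ 1)) o) c + D (mrg (s (σ 0)) (s (σ 1)) o) c + 1 -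
      kd (s (σ 0)) (s (σ 1)) c) = 2 * sF (stt c (mrg (s (σ 0)) (s (σ 1)) o)) +
      sD (stt c (mrg (s (σ 0)) (s (σ 1)) o)) + 1 - sk (stt c (s (σ 0))) (stt c (s (σ 1))) := by
    intro c
    rw [kd_stt, (stt_bits c (mrg (s (σ 0)) (s (σ 1)) o)).2.1,
      (stt_bits c (mrg (s (σ 0)) (s (σ 1)) o)).2.2]
  rw [Finset.sum_congr rfl fun c _ => g1 c, Finset.sum_congr rfl fun c _ => g2 c]
  push_cast
  rw [← Finset.sum_div, ← Finset.sum_div]
  ring

/-- THE FOUR-SAMPLE INEQUALITY. -/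
theorem fourIneqA_T2 : FourIneqA gT2 LT2 (1 / 4) kT2 := by
  intro s hs f f' hf hf' P hP hfP hfP'
  have h1 := four_int P s hs hP f f' hf hf' hfP hfP'
  have h2 : ((768 + 8 * ∑ i, ∑ j, (if i ≠ j then e2 (s i) (s j) else 0) : ℤ) : ℝ) ≤
      ((∑ c ∈ P, ∑ σ : Equiv.Perm (Fin 4), RR (stt c (s (σ 0))) (stt c (s (σ 1))) (stt c (s (σ 2)))
        (stt c (s (σ 3))) +
      ∑ σ : Equiv.Perm (Fin 4), S4 fun o o' => NT P (s (σ 0)) (s (σ 1)) (s (σ 2)) (s (σ 3)) o o'
        (f σ o o') (f' σ o o') : ℤ) : ℝ) := by exact_mod_cast h1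
  have h3 : ((∑ c ∈ P, ∑ σ : Equiv.Perm (Fin 4), RR (stt c (s (σ 0))) (stt c (s (σ 1)))
      (stt c (s (σ 2))) (stt c (s (σ 3))) : ℤ) : ℝ) =
      768 * ∑ c ∈ P, gT2 (stt c (s 0)) (stt c (s 1)) (stt c (s 2)) (stt c (s 3)) := by
    rw [Int.cast_sum, Finset.mul_sum]
    exact Finset.sum_congr rfl fun c _ => perm_sum_real fun i => stt c (s i)
  have h4 : 8 * ∑ σ : Equiv.Perm (Fin 4), ∑ o : Bool, ∑ o' : Bool,
      T4a gT2 LT2 (1 / 4) kT2 P s σ o o' (f σ o o') (f' σ o o') =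
      768 * ∑ c ∈ P, gT2 (stt c (s 0)) (stt c (s 1)) (stt c (s 2)) (stt c (s 3)) +
      ((∑ σ : Equiv.Perm (Fin 4), S4 fun o o' => NT P (s (σ 0)) (s (σ 1)) (s (σ 2)) (s (σ 3)) o o'
        (f σ o o') (f' σ o o') : ℤ) : ℝ) := by
    have hc : ∀ σ : Equiv.Perm (Fin 4), 8 * ∑ o : Bool, ∑ o' : Bool,
        T4a gT2 LT2 (1 / 4) kT2 P s σ o o' (f σ o o') (f' σ o o') =
        32 * ∑ c ∈ P, gT2 (stt c (s 0)) (stt c (s 1)) (stt c (s 2)) (stt c (s 3)) +
        ((S4 fun o o' => NT P (s (σ 0)) (s (σ 1)) (s (σ 2)) (s (σ 3)) o o'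
          (f σ o o') (f' σ o o') : ℤ) : ℝ) := by
      intro σ
      rw [Fintype.sum_bool, Fintype.sum_bool, Fintype.sum_bool]
      have a1 := eight_T4a (W := P) (hf σ true true) (hf' σ true true) (hfP σ true true)
        (hfP' σ true true)
      have a2 := eight_T4a (W := P) (hf σ true false) (hf' σ true false) (hfP σ true false)
        (hfP' σ true false)
      have a3 := eight_T4a (W := P) (hf σ false true) (hf' σ false true) (hfP σ false true)
        (hfP' σ false true)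
      have a4 := eight_T4a (W := P) (hf σ false false) (hf' σ false false) (hfP σ false false)
        (hfP' σ false false)
      unfold S4
      push_cast
      linarith
    rw [Finset.mul_sum, Finset.sum_congr rfl fun σ _ => hc σ, Finset.sum_add_distrib,
      Finset.sum_const, Int.cast_sum]
    have hcard : (Finset.univ : Finset (Equiv.Perm (Fin 4))).card = 24 := by
      rw [Finset.card_univ, Fintype.card_perm, Fintype.card_fin]
      rfl
    rw [hcard, nsmul_eq_mul]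
    push_cast
    ring
  have h5 : ((∑ i, ∑ j, (if i ≠ j then e2 (s i) (s j) else 0) : ℤ) : ℝ) =
      8 * ∑ i, ∑ j, (if i ≠ j then kT2 (s i) (s j) else 0) := by
    rw [Int.cast_sum, Finset.mul_sum]
    refine Finset.sum_congr rfl fun i _ => ?_
    rw [Int.cast_sum, Finset.mul_sum]
    refine Finset.sum_congr rfl fun j _ => ?_
    split_ifs
    · unfold kT2; ring
    · simp
  rw [Int.cast_add, Int.cast_add, h3, Int.cast_mul, h5] at h2
  push_cast at h2 h4
  linarith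

end Pool.Agent.Helper49.OC2
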