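import Pool.Agent.Helper49.OC2.Exceptional

/-!
# Four-sample inequality: the pairing-local inequality for minimal fixes
-/

namespace Pool.Agent.Helper49.OC2

open Finset Pool.Agent.Helper2.OC

/-- `m` arises from `μ` by adding exactly one name to every empty side -/
def MinFix (μ m : Sta) : Prop :=
  (∀ σ, ¬ μ σ ⊆ μ (!σ) → m σ = μ σ) ∧
    ∀ σ, μ σ ⊆ μ (!σ) → ∃ x, (∀ τ, x ∉ μ τ) ∧ m σ = insert x (μ σ) ∧ x ∉ m (!σ)

theorem MinFix.sub {μ m : Sta} (h : MinFix μ m) (σ : Bool) : μ σ ⊆ m σ := by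
  by_cases h1 : μ σ ⊆ μ (!σ)
  · obtain ⟨x, _, h2, _⟩ := h.2 σ h1
    rw [h2]
    exact Finset.subset_insert _ _
  · rw [h.1 σ h1]

theorem MinFix.sat {μ m : Sta} (h : MinFix μ m) : Sat m := by
  intro σ
  by_cases h1 : μ σ ⊆ μ (!σ)
  · obtain ⟨x, _, h2, h3⟩ := h.2 σ h1
    exact ⟨x, by rw [h2]; exact Finset.mem_insert_self _ _, h3⟩
  · obtain ⟨c, hc, hc'⟩ := Finset.not_subset.mp h1
    by_cases h4 : μ (!σ) ⊆ μ (!!σ)
    · obtain ⟨x, h5, h6, _⟩ := h.2 (!σ) h4
      refine ⟨c, h.sub σ hc, ?_⟩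
      rw [h6, Finset.mem_insert]
      push Not
      refine ⟨?_, hc'⟩
      rintro rfl
      exact h5 σ hc
    · exact ⟨c, h.sub σ hc, by rw [h.1 (!σ) h4]; exact hc'⟩

theorem MinFix.eq {μ m : Sta} (h : MinFix μ m) (h0 : em μ = 0) : m = μ := by
  have hs := sat_of_em h0
  funext σ
  refine h.1 σ fun h1 => ?_
  obtain ⟨c, hc, hc'⟩ := hs σ
  exact hc' (h1 hc)

theorem MinFix.name {μ m : Sta} (h : MinFix μ m) {c : ℕ} (h1 : F μ c = 1) (h2 : F m c = 0) :
    ∃ σ, μ σ ⊆ μ (!σ) ∧ c ∈ m σ ∧ c ∉ m (!σ) := by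
  obtain ⟨σ, hσ⟩ := mem_of_F_zero h2
  have hn := F_eq_one_iff.mp h1
  by_cases h3 : μ σ ⊆ μ (!σ)
  · obtain ⟨x, _, h5, h6⟩ := h.2 σ h3
    rw [h5, Finset.mem_insert] at hσ
    rcases hσ with rfl | hσ
    · exact ⟨σ, h3, by rw [h5]; exact Finset.mem_insert_self _ _, h6⟩
    · exact absurd hσ (hn σ)
  · rw [h.1 σ h3] at hσ
    exact absurd hσ (hn σ)

theorem MinFix.name_live {μ m : Sta} (h : MinFix μ m) {c : ℕ} (h1 : F μ c = 1) (h2 : F m c = 0) :
    Live m c := by
  obtain ⟨σ, _, h3, h4⟩ := h.name h1 h2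
  exact ⟨σ, h3, h4⟩

theorem F_anti {μ m : Sta} (h : ∀ σ, μ σ ⊆ m σ) (c : ℕ) : F m c ≤ F μ c := by
  rcases F_zero_or_one m c with h1 | h1
  · rw [h1]; exact F_nonneg _ _
  · have := F_eq_one_iff.mp h1
    rw [h1, F_eq_one_iff.mpr fun σ hc => this σ (h σ hc)]

theorem MinFix.sum_names {μ m : Sta} (h : MinFix μ m) (W : Finset ℕ) :
    ∑ c ∈ W, (F μ c - F m c) ≤ em μ := by
  -- choose the names
  have hex : ∀ σ, ∃ x, μ σ ⊆ μ (!σ) → m σ = insert x (μ σ) := by
    intro σ
    by_cases h1 : μ σ ⊆ μ (!σ)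
    · obtain ⟨x, _, h2, _⟩ := h.2 σ h1
      exact ⟨x, fun _ => h2⟩
    · exact ⟨0, fun h2 => absurd h2 h1⟩
  choose χ hχ using hex
  have key : ∀ c, F μ c - F m c ≤ (if c = χ false then ei μ false else 0) +
      (if c = χ true then ei μ true else 0) := by
    intro c
    have n0 : (0 : ℤ) ≤ (if c = χ false then ei μ false else 0) := by
      split_ifs
      · exact ei_nonneg _ _
      · exact le_rfl
    have n1 : (0 : ℤ) ≤ (if c = χ true then ei μ true else 0) := by
      split_ifs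
      · exact ei_nonneg _ _
      · exact le_rfl
    rcases F_zero_or_one μ c with h1 | h1
    · have := F_nonneg m c
      rw [h1]
      linarith
    · rcases F_zero_or_one m c with h2 | h2
      · obtain ⟨σ, h3, h4, _⟩ := h.name h1 h2
        have hn := F_eq_one_iff.mp h1
        rw [hχ σ h3, Finset.mem_insert] at h4
        have hc : c = χ σ := by
          rcases h4 with h4 | h4
          · exact h4
          · exact absurd h4 (hn σ)
        have he : ei μ σ = 1 := by unfold ei; rw [if_pos h3]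
        cases σ
        · rw [if_pos hc, he, h1, h2]; linarith
        · rw [if_pos hc, he, h1, h2]; linarith
      · rw [h1, h2]; linarith
  calc ∑ c ∈ W, (F μ c - F m c) ≤ ∑ c ∈ W, ((if c = χ false then ei μ false else 0) +
        (if c = χ true then ei μ true else 0)) := Finset.sum_le_sum fun c _ => key c
    _ ≤ em μ := by
        rw [Finset.sum_add_distrib, Finset.sum_ite_eq', Finset.sum_ite_eq']
        unfold em
        have := ei_nonneg μ false
        have := ei_nonneg μ true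
        split_ifs <;> linarith

/-- the names which are live / not free in the other pair -/
def bb (W : Finset ℕ) (μ m r s : Sta) : ℤ := ∑ c ∈ W, (F μ c - F m c) * kd r s c

theorem bb_nonneg {W : Finset ℕ} {μ m r s : Sta} (h : ∀ σ, μ σ ⊆ m σ) : 0 ≤ bb W μ m r s :=
  Finset.sum_nonneg fun c _ => mul_nonneg (sub_nonneg.mpr (F_anti h c)) (kd_nonneg _ _ _)

theorem kd_le_one (p q : Sta) (c : ℕ) : kd p q c ≤ 1 := by
  rcases kd_zero_or_one p q c with h | h <;> rw [h] <;> norm_num

theorem bb_le_em {W : Finset ℕ} {μ m r s : Sta} (h : MinFix μ m) : bb W μ m r s ≤ em μ := by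
  refine le_trans (Finset.sum_le_sum fun c _ => ?_) (h.sum_names W)
  have h1 := sub_nonneg.mpr (F_anti h.sub c)
  have h2 := kd_le_one r s c
  nlinarith [kd_nonneg r s c]

theorem bb_le_nn {W : Finset ℕ} {p q m r s : Sta} {y : Bool} :
    bb W (mrg p q y) m r s ≤ nn W p q r s := by
  refine Finset.sum_le_sum fun c _ => ?_
  have h1 := F_nonneg m c
  have h2 := kd_nonneg r s c
  have h3 := F_mrg p q y c
  rw [h3]
  nlinarith [mul_nonneg h1 h2]

section

variable {W : Finset ℕ} {p q r s : Sta}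

/-- all data for the pairing-local inequality -/
structure Dat (W : Finset ℕ) (p q r s : Sta) (m m' : Bool → Bool → Sta) : Prop where
  hp : Sat p
  hq : Sat q
  hr : Sat r
  hs : Sat s
  hpW : ∀ σ, p σ ⊆ W
  hqW : ∀ σ, q σ ⊆ W
  hrW : ∀ σ, r σ ⊆ W
  hsW : ∀ σ, s σ ⊆ W
  hm : ∀ o o', MinFix (mrg p q o) (m o o')
  hm' : ∀ o o', MinFix (mrg r s o') (m' o o')
  hmW : ∀ o o' σ, m o o' σ ⊆ W
  hmW' : ∀ o o' σ, m' o o' σ ⊆ W

variable {m m' : Bool → Bool → Sta}

theorem Dat.symm (h : Dat W p q r s m m') :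
    Dat W r s p q (fun a b => m' b a) (fun a b => m b a) :=
  ⟨h.hr, h.hs, h.hp, h.hq, h.hrW, h.hsW, h.hpW, h.hqW, fun o o' => h.hm' o' o,
    fun o o' => h.hm o' o, fun o o' => h.hmW' o' o, fun o o' => h.hmW o' o⟩

/-- the contribution of one combination of orientations -/
def XX (W : Finset ℕ) (p q r s : Sta) (m m' : Bool → Bool → Sta) (o o' : Bool) : ℤ :=
  exc W (m o o') (m' o o') - bb W (mrg p q o) (m o o') r s - bb W (mrg r s o') (m' o o') p q

theorem XX_symm (W : Finset ℕ) (p q r s : Sta) (m m' : Bool → Bool → Sta) :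
    S4 (XX W r s p q (fun a b => m' b a) (fun a b => m b a)) = S4 (XX W p q r s m m') := by
  rw [← S4_swap]
  congr 1
  funext a b
  unfold XX
  rw [exc_comm]
  ring

theorem Dat.exc_nonneg (h : Dat W p q r s m m') (o o' : Bool) : 0 ≤ exc W (m o o') (m' o o') :=
  OC2.exc_nonneg (h.hm o o').sat (h.hm' o o').sat (h.hmW o o') (h.hmW' o o')

theorem bsum {κ n b0 b1 e0 e1 : ℤ} (hκ : 2 ≤ κ) (h1 : 0 ≤ b0) (h2 : 0 ≤ b1) (h3 : b0 ≤ e0)
    (h4 : b1 ≤ e1) (h5 : b0 ≤ n) (h6 : b1 ≤ n) (h7 : e0 ≤ 2) (h8 : e1 ≤ 2)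
    (h9 : 1 ≤ e0 → 1 ≤ e1 → 3 ≤ κ) (h10 : 2 ≤ e0 → 2 ≤ e1 → 4 ≤ κ) : b0 + b1 ≤ n + κ - 2 := by
  omega

/-- the names of the first pair are paid for -/
theorem Dat.pay (h : Dat W p q r s m m') (hκ : 2 ≤ ∑ c ∈ W, kd p q c) (o' : Bool) :
    bb W (mrg p q false) (m false o') r s + bb W (mrg p q true) (m true o') r s ≤
      nn W p q r s + ∑ c ∈ W, kd p q c - 2 :=
  bsum hκ (bb_nonneg (h.hm false o').sub) (bb_nonneg (h.hm true o').sub) (bb_le_em (h.hm false o'))
    (bb_le_em (h.hm true o')) bb_le_nn bb_le_nn (em_le_two _) (em_le_two _)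
    (kap_three h.hp h.hq h.hpW h.hqW) (kap_four h.hp h.hq h.hpW h.hqW)

theorem Dat.pay' (h : Dat W p q r s m m') (hκ : 2 ≤ ∑ c ∈ W, kd r s c) (o : Bool) :
    bb W (mrg r s false) (m' o false) p q + bb W (mrg r s true) (m' o true) p q ≤
      nn W r s p q + ∑ c ∈ W, kd r s c - 2 :=
  h.symm.pay hκ o

theorem caseA (h : Dat W p q r s m m') (h1 : 2 ≤ ∑ c ∈ W, kd p q c)
    (h2 : 2 ≤ ∑ c ∈ W, kd r s c) :
    8 ≤ 2 * ∑ c ∈ W, kd p q c + 2 * ∑ c ∈ W, kd r s c + 2 * nn W p q r s + 2 * nn W r s p q +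
      S4 (XX W p q r s m m') := by
  have a1 := h.pay h1 false
  have a2 := h.pay h1 true
  have a3 := h.pay' h2 false
  have a4 := h.pay' h2 true
  have e1 := h.exc_nonneg false false
  have e2 := h.exc_nonneg false true
  have e3 := h.exc_nonneg true false
  have e4 := h.exc_nonneg true true
  unfold S4 XX
  linarith

theorem bb_zero (W : Finset ℕ) (μ r s : Sta) : bb W μ μ r s = 0 := by
  unfold bb
  simp

/-- the first pair is exceptional -/
theorem Dat.eqm (h : Dat W p q r s m m') (h1 : ∑ c ∈ W, kd p q c ≤ 1) (o o' : Bool) :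
    m o o' = mrg p q o :=
  (h.hm o o').eq (em_zero_of_kap h.hp h.hq h.hpW h.hqW h1 o)

theorem Dat.XX1 (h : Dat W p q r s m m') (h1 : ∑ c ∈ W, kd p q c ≤ 1) (o o' : Bool) :
    XX W p q r s m m' o o' =
      exc W (mrg p q o) (m' o o') - bb W (mrg r s o') (m' o o') p q := by
  unfold XX
  rw [h.eqm h1, bb_zero]
  ring

theorem Dat.satM (h : Dat W p q r s m m') (h1 : ∑ c ∈ W, kd p q c ≤ 1) (o : Bool) :
    Sat (mrg p q o) := sat_of_em (em_zero_of_kap h.hp h.hq h.hpW h.hqW h1 o)

theorem Dat.MW (h : Dat W p q r s m m') (o σ : Bool) : mrg p q o σ ⊆ W := mrg_sub h.hpW h.hqW o σ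

/-- sums against the single special colour -/
theorem bb_single {κx : ℕ} (h : ∑ c ∈ W, kd p q c = 1) (hx : κx ∈ W) (hk : kd p q κx = 1)
    (μ m : Sta) : bb W μ m p q = F μ κx - F m κx := by
  unfold bb
  rw [Finset.sum_eq_single κx]
  · rw [hk, mul_one]
  · intro c hc hne
    have := kd_unique h hx hc hk hne
    rcases kd_zero_or_one p q c with h0 | h0
    · rw [h0, mul_zero]
    · exact absurd h0 this
  · intro h0; exact absurd hx h0

theorem nn_single {κx : ℕ} (h : ∑ c ∈ W, kd p q c = 1) (hx : κx ∈ W) (hk : kd p q κx = 1)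
    (r s : Sta) : nn W r s p q = F r κx * F s κx := by
  unfold nn
  rw [Finset.sum_eq_single κx]
  · rw [hk, mul_one]
  · intro c hc hne
    have := kd_unique h hx hc hk hne
    rcases kd_zero_or_one p q c with h0 | h0
    · rw [h0, mul_zero]
    · exact absurd h0 this
  · intro h0; exact absurd hx h0

theorem caseB0 (h : Dat W p q r s m m') (h1 : ∑ c ∈ W, kd p q c = 0)
    (h2 : 2 ≤ ∑ c ∈ W, kd r s c) :
    8 ≤ 2 * ∑ c ∈ W, kd p q c + 2 * ∑ c ∈ W, kd r s c + 2 * nn W p q r s + 2 * nn W r s p q +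
      S4 (XX W p q r s m m') := by
  have a3 := h.pay' h2 false
  have a4 := h.pay' h2 true
  have key : ∀ o o', 1 ≤ exc W (mrg p q o) (m' o o') := by
    intro o o'
    obtain ⟨_, b2, _⟩ := exc_bounds (h.satM (by omega) o) (h.hm' o o').sat (h.MW o)
      (h.hmW' o o')
    exact b2 (type_zero h.hp h.hq h.hpW h.hqW h1 o)
  have hn := nn_nonneg W p q r s
  unfold S4
  rw [h.XX1 (by omega), h.XX1 (by omega), h.XX1 (by omega), h.XX1 (by omega)]
  linarith [key false false, key false true, key true false, key true true]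

theorem caseBL (h : Dat W p q r s m m') (h1 : ∑ c ∈ W, kd p q c = 1) (hL : TyL W p q)
    (h2 : 2 ≤ ∑ c ∈ W, kd r s c) :
    8 ≤ 2 * ∑ c ∈ W, kd p q c + 2 * ∑ c ∈ W, kd r s c + 2 * nn W p q r s + 2 * nn W r s p q +
      S4 (XX W p q r s m m') := by
  have a3 := h.pay' h2 false
  have a4 := h.pay' h2 true
  obtain ⟨y, hy, _⟩ := hL
  have key : ∀ o', 1 ≤ exc W (mrg p q y) (m' y o') := by
    intro o'
    obtain ⟨_, b2, _⟩ := exc_bounds (h.satM (by omega) y) (h.hm' y o').sat (h.MW y)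
      (h.hmW' y o')
    exact b2 hy
  have key2 : ∀ o o', 0 ≤ exc W (mrg p q o) (m' o o') := fun o o' =>
    exc_nonneg (h.satM (by omega) o) (h.hm' o o').sat (h.MW o) (h.hmW' o o')
  have hn := nn_nonneg W p q r s
  unfold S4
  rw [h.XX1 (by omega), h.XX1 (by omega), h.XX1 (by omega), h.XX1 (by omega)]
  cases y
  · linarith [key false, key true, key2 true false, key2 true true]
  · linarith [key false, key true, key2 false false, key2 false true]

theorem F_fix_of_mem {μ m : Sta} (h : ∀ σ, μ σ ⊆ m σ) {c : ℕ} (hc : ∃ σ, c ∈ μ σ) :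
    ∃ σ, c ∈ m σ := by
  obtain ⟨σ, hσ⟩ := hc
  exact ⟨σ, h σ hσ⟩

theorem caseBD (h : Dat W p q r s m m') (h1 : ∑ c ∈ W, kd p q c = 1) (hD : TyD p q)
    (h2 : 2 ≤ ∑ c ∈ W, kd r s c) :
    8 ≤ 2 * ∑ c ∈ W, kd p q c + 2 * ∑ c ∈ W, kd r s c + 2 * nn W p q r s + 2 * nn W r s p q +
      S4 (XX W p q r s m m') := by
  obtain ⟨x, z, w, t, t1, t2, hkt, ntx, ntz, ntw⟩ := hD
  have htW : t ∈ W := by
    rcases kd_one_of_live hkt with hl | hl
    · exact hl.mem h.hpW
    · exact hl.mem h.hqW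
  have hbb : ∀ o o', bb W (mrg r s o') (m' o o') p q = F (mrg r s o') t - F (m' o o') t :=
    fun o o' => bb_single h1 htW hkt _ _
  have hnq := nn_single h1 htW hkt r s
  have hn := nn_nonneg W p q r s
  have E0 : ∀ o o', 0 ≤ exc W (mrg p q o) (m' o o') := fun o o' =>
    exc_nonneg (h.satM (by omega) o) (h.hm' o o').sat (h.MW o) (h.hmW' o o')
  have tight0 : ∀ o', exc W (mrg p q false) (m' false o') ≤ 0 →
      (∀ σ, w ∉ m' false o' σ) ∧ Live (m' false o') x ∧ Live (m' false o') z ∧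
        ∀ c, Live (m' false o') c → c = x ∨ c = z := fun o' ho =>
    trip_tight t1 (h.satM (by omega) false) (h.hm' false o').sat (h.MW false) (h.hmW' false o') ho
  have tight1 : ∀ o', exc W (mrg p q true) (m' true o') ≤ 0 →
      (∀ σ, z ∉ m' true o' σ) ∧ Live (m' true o') x ∧ Live (m' true o') w ∧
        ∀ c, Live (m' true o') c → c = x ∨ c = w := fun o' ho =>
    trip_tight t2 (h.satM (by omega) true) (h.hm' true o').sat (h.MW true) (h.hmW' true o') ho
  -- every combination is nonnegative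
  have X0 : ∀ o o', 0 ≤ exc W (mrg p q o) (m' o o') - (F (mrg r s o') t - F (m' o o') t) := by
    intro o o'
    have := E0 o o'
    rcases F_zero_or_one (mrg r s o') t with f1 | f1
    · have := F_nonneg (m' o o') t
      rw [f1]; linarith
    · rcases F_zero_or_one (m' o o') t with f2 | f2
      · have hl := (h.hm' o o').name_live f1 f2
        by_contra hcon
        rw [f1, f2] at hcon
        cases o
        · rcases (tight0 o' (by omega)).2.2.2 t hl with h3 | h3
          · exact ntx h3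
          · exact ntz h3
        · rcases (tight1 o' (by omega)).2.2.2 t hl with h3 | h3
          · exact ntx h3
          · exact ntw h3
      · rw [f1, f2]; linarith
  unfold S4
  rw [h.XX1 (by omega), h.XX1 (by omega), h.XX1 (by omega), h.XX1 (by omega), hbb, hbb, hbb, hbb]
  have X00 := X0 false false
  have X01 := X0 false true
  have X10 := X0 true false
  have X11 := X0 true true
  have hnq0 : 0 ≤ nn W r s p q := nn_nonneg _ _ _ _ _
  by_cases hbig : 3 ≤ ∑ c ∈ W, kd r s c + nn W p q r s + nn W r s p q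
  · linarith
  -- now there are no spare colours
  have hκ : ∑ c ∈ W, kd r s c = 2 := by omega
  have hnq00 : nn W r s p q = 0 := by omega
  have hff : F r t * F s t = 0 := by rw [← hnq]; exact hnq00
  have fb : ∀ o o', F (mrg r s o') t - F (m' o o') t = 0 := by
    intro o o'
    have f1 : F (mrg r s o') t = 0 := by rw [F_mrg]; exact hff
    have f2 := F_anti (h.hm' o o').sub t
    have f3 := F_nonneg (m' o o') t
    omega
  rw [fb, fb, fb, fb]
  -- one orientation of the second pair has no names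
  obtain ⟨y, hy⟩ : ∃ y, em (mrg r s y) = 0 := by
    by_contra hcon
    push Not at hcon
    have g1 := hcon false
    have g2 := hcon true
    have g3 := em_nonneg (mrg r s false)
    have g4 := em_nonneg (mrg r s true)
    have := kap_three h.hr h.hs h.hrW h.hsW (by omega) (by omega)
    omega
  have my : ∀ o, m' o y = mrg r s y := fun o => (h.hm' o y).eq hy
  have key1 : 1 ≤ exc W (mrg p q false) (m' false y) + exc W (mrg p q true) (m' true y) := by
    by_contra hcon
    have g1 := E0 false y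
    have g2 := E0 true y
    obtain ⟨-, -, f3, -⟩ := tight0 y (by omega)
    obtain ⟨f4, -⟩ := tight1 y (by omega)
    rw [my] at f3 f4
    obtain ⟨σ, hσ, _⟩ := f3
    exact f4 σ hσ
  have key2 : 1 ≤ exc W (mrg p q false) (m' false (!y)) + exc W (mrg p q true) (m' true (!y)) ∨
      2 ≤ exc W (mrg p q false) (m' false y) + exc W (mrg p q true) (m' true y) := by
    by_contra hcon
    push Not at hcon
    have g1 := E0 false (!y)
    have g2 := E0 true (!y)
    have g3 := E0 false y
    have g4 := E0 true y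
    obtain ⟨f1, -⟩ := tight0 (!y) (by omega)
    obtain ⟨f2, -⟩ := tight1 (!y) (by omega)
    have fw : ∀ σ, w ∉ mrg r s y σ := by
      refine not_mem_of_FF (FF_of_not_mem (y := !y) fun σ hσ => f1 σ ?_) y
      exact (h.hm' false (!y)).sub σ hσ
    have fz : ∀ σ, z ∉ mrg r s y σ := by
      refine not_mem_of_FF (FF_of_not_mem (y := !y) fun σ hσ => f2 σ ?_) y
      exact (h.hm' true (!y)).sub σ hσ
    by_cases g5 : exc W (mrg p q false) (m' false y) ≤ 0
    · obtain ⟨-, -, f3, -⟩ := tight0 y g5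
      rw [my] at f3
      obtain ⟨σ, hσ, _⟩ := f3
      exact fz σ hσ
    · obtain ⟨-, -, f3, -⟩ := tight1 y (by omega)
      rw [my] at f3
      obtain ⟨σ, hσ, _⟩ := f3
      exact fw σ hσ
  have g1 := E0 false (!y)
  have g2 := E0 true (!y)
  have g3 := E0 false y
  have g4 := E0 true y
  cases y
  · simp only [Bool.not_false] at key2 g1 g2
    rcases key2 with key2 | key2 <;> linarith
  · simp only [Bool.not_true] at key2 g1 g2
    rcases key2 with key2 | key2 <;> linarith

theorem caseBK (h : Dat W p q r s m m') (h1 : ∑ c ∈ W, kd p q c = 1) (hK : TyK p q)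
    (h2 : 2 ≤ ∑ c ∈ W, kd r s c) :
    8 ≤ 2 * ∑ c ∈ W, kd p q c + 2 * ∑ c ∈ W, kd r s c + 2 * nn W p q r s + 2 * nn W r s p q +
      S4 (XX W p q r s m m') := by
  obtain ⟨y, x, a, b, tr, la, lb, hl, hd, hk⟩ := hK
  obtain ⟨tx, ta, tb, n1, n2, n3⟩ := tr.live
  have hxW : x ∈ W := tx.mem (h.MW y)
  have hbb : ∀ o o', bb W (mrg r s o') (m' o o') p q = F (mrg r s o') x - F (m' o o') x :=
    fun o o' => bb_single h1 hxW hk _ _
  have hnq := nn_single h1 hxW hk r s
  have hn := nn_nonneg W p q r s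
  have E0 : ∀ o o', 0 ≤ exc W (mrg p q o) (m' o o') := fun o o' =>
    exc_nonneg (h.satM (by omega) o) (h.hm' o o').sat (h.MW o) (h.hmW' o o')
  have tight : ∀ o', exc W (mrg p q y) (m' y o') ≤ 0 →
      (∀ σ, x ∉ m' y o' σ) ∧ Live (m' y o') a ∧ Live (m' y o') b ∧
        ∀ c, Live (m' y o') c → c = a ∨ c = b := fun o' ho =>
    trip_tight tr (h.satM (by omega) y) (h.hm' y o').sat (h.MW y) (h.hmW' y o') ho
  rw [S4_eq _ y false]
  simp only [Bool.not_false]
  rw [h.XX1 (by omega), h.XX1 (by omega), h.XX1 (by omega), h.XX1 (by omega), hbb, hbb, hbb, hbb]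
  rcases FF_zero_or_one r s x with hf | hf
  · -- `x` is used in the second pair
    have fb : ∀ o o', F (mrg r s o') x - F (m' o o') x = 0 := by
      intro o o'
      have f1 : F (mrg r s o') x = 0 := by rw [F_mrg]; exact hf
      have f2 := F_anti (h.hm' o o').sub x
      have f3 := F_nonneg (m' o o') x
      omega
    have E1 : ∀ o', 1 ≤ exc W (mrg p q y) (m' y o') := by
      intro o'
      by_contra hcon
      obtain ⟨f1, -⟩ := tight o' (by omega)
      obtain ⟨σ, hσ⟩ := mem_mrg_of_FF hf o'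
      exact f1 σ ((h.hm' y o').sub σ hσ)
    have hn2 := nn_nonneg W r s p q
    rw [fb, fb, fb, fb]
    linarith [E1 false, E1 true, E0 (!y) false, E0 (!y) true]
  · rw [hf] at hnq
    -- the combinations with orientation `y`
    have X1 : ∀ o', 0 ≤ exc W (mrg p q y) (m' y o') - (F (mrg r s o') x - F (m' y o') x) := by
      intro o'
      have g0 := E0 y o'
      rcases F_zero_or_one (m' y o') x with f2 | f2
      · have : 1 ≤ exc W (mrg p q y) (m' y o') := by
          by_contra hcon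
          obtain ⟨f1, -⟩ := tight o' (by omega)
          obtain ⟨σ, hσ⟩ := mem_of_F_zero f2
          exact f1 σ hσ
        have f3 : F (mrg r s o') x ≤ 1 := by
          rcases F_zero_or_one (mrg r s o') x with h | h <;> rw [h] <;> norm_num
        rw [f2]; linarith
      · have f3 : F (mrg r s o') x ≤ 1 := by
          rcases F_zero_or_one (mrg r s o') x with h | h <;> rw [h] <;> norm_num
        rw [f2]; linarith
    have X2 : ∀ o', -1 ≤ exc W (mrg p q (!y)) (m' (!y) o') -
        (F (mrg r s o') x - F (m' (!y) o') x) := by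
      intro o'
      have g0 := E0 (!y) o'
      have f3 : F (mrg r s o') x ≤ 1 := by
        rcases F_zero_or_one (mrg r s o') x with h | h <;> rw [h] <;> norm_num
      have f4 := F_nonneg (m' (!y) o') x
      linarith
    have X10 := X1 false
    have X11 := X1 true
    have X20 := X2 false
    have X21 := X2 true
    by_cases hbig : 3 ≤ ∑ c ∈ W, kd r s c + nn W p q r s
    · linarith
    have hκ : ∑ c ∈ W, kd r s c = 2 := by omega
    -- one orientation of the second pair has no names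
    obtain ⟨z, hz⟩ : ∃ z, em (mrg r s z) = 0 := by
      by_contra hcon
      push Not at hcon
      have g1 := hcon false
      have g2 := hcon true
      have g3 := em_nonneg (mrg r s false)
      have g4 := em_nonneg (mrg r s true)
      have := kap_three h.hr h.hs h.hrW h.hsW (by omega) (by omega)
      omega
    have mz : ∀ o, m' o z = mrg r s z := fun o => (h.hm' o z).eq hz
    have key1 : 0 ≤ exc W (mrg p q (!y)) (m' (!y) z) - (F (mrg r s z) x - F (m' (!y) z) x) := by
      have := E0 (!y) z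
      rw [mz] at this ⊢
      linarith
    have key2 : 0 ≤ (exc W (mrg p q y) (m' y z) - (F (mrg r s z) x - F (m' y z) x)) +
        (exc W (mrg p q (!y)) (m' (!y) (!z)) - (F (mrg r s (!z)) x - F (m' (!y) (!z)) x)) := by
      by_contra hcon
      have g1 := X1 z
      have g2 := X2 (!z)
      have g3 := E0 (!y) (!z)
      have g4 := E0 y z
      have f3 : F (mrg r s (!z)) x = 1 := by rw [F_mrg]; exact hf
      have f4 : F (mrg r s z) x = 1 := by rw [F_mrg]; exact hf
      have f5 : F (m' y z) x = 1 := by rw [mz]; exact f4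
      have f6 : F (m' (!y) (!z)) x = 0 := by
        rcases F_zero_or_one (m' (!y) (!z)) x with h0 | h0
        · exact h0
        · rw [f3, f4, f5, h0] at hcon; omega
      have g5 : exc W (mrg p q y) (m' y z) ≤ 0 := by rw [f3, f4, f5, f6] at hcon; omega
      have g6 : exc W (mrg p q (!y)) (m' (!y) (!z)) ≤ 0 := by
        rw [f3, f4, f5, f6] at hcon; omega
      obtain ⟨-, qa, qb, -⟩ := tight z g5
      rw [mz] at qa qb
      have ua : ∃ σ, a ∈ m' (!y) (!z) σ := by
        refine F_fix_of_mem (h.hm' (!y) (!z)).sub (mem_mrg_of_FF ?_ (!z))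
        obtain ⟨σ, hσ, _⟩ := qa
        have := F_eq_zero hσ
        rwa [F_mrg] at this
      have ub : ∃ σ, b ∈ m' (!y) (!z) σ := by
        refine F_fix_of_mem (h.hm' (!y) (!z)).sub (mem_mrg_of_FF ?_ (!z))
        obtain ⟨σ, hσ, _⟩ := qb
        have := F_eq_zero hσ
        rwa [F_mrg] at this
      have lx : Live (m' (!y) (!z)) x := (h.hm' (!y) (!z)).name_live f3 f6
      obtain ⟨σa, hσa⟩ := ua
      obtain ⟨σb, hσb⟩ := ub
      have k3 := sum_ge_three (W := W) (f := fun c => kd (mrg p q (!y)) (m' (!y) (!z)) c)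
        (fun c => kd_nonneg _ _ _) hxW (ta.mem (h.MW y)) (tb.mem (h.MW y)) n1 n2 n3
      have k4 : kd (mrg p q (!y)) (m' (!y) (!z)) x = 1 := kd_right lx (hd false)
      have k5 : kd (mrg p q (!y)) (m' (!y) (!z)) a = 1 := kd_left la hσa
      have k6 : kd (mrg p q (!y)) (m' (!y) (!z)) b = 1 := kd_left lb hσb
      simp only [k4, k5, k6] at k3
      obtain ⟨_, _, _, _, _, b6⟩ := exc_bounds (h.satM (by omega) (!y)) (h.hm' (!y) (!z)).sat
        (h.MW (!y)) (h.hmW' (!y) (!z))
      have := b6 (by linarith)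
      omega
    have X1z := X1 (!z)
    cases z
    · simp only [Bool.not_false] at key2 X1z
      linarith
    · simp only [Bool.not_true] at key2 X1z
      linarith

theorem caseB (h : Dat W p q r s m m') (h1 : ∑ c ∈ W, kd p q c ≤ 1)
    (h2 : 2 ≤ ∑ c ∈ W, kd r s c) :
    8 ≤ 2 * ∑ c ∈ W, kd p q c + 2 * ∑ c ∈ W, kd r s c + 2 * nn W p q r s + 2 * nn W r s p q +
      S4 (XX W p q r s m m') := by
  have h0 : 0 ≤ ∑ c ∈ W, kd p q c := Finset.sum_nonneg fun c _ => kd_nonneg _ _ _
  by_cases hz : ∑ c ∈ W, kd p q c = 0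
  · exact caseB0 h hz h2
  have h1' : ∑ c ∈ W, kd p q c = 1 := by omega
  rcases type_one h.hp h.hq h.hpW h.hqW h1' with t | t | t
  · exact caseBL h h1' t h2
  · exact caseBK h h1' t h2
  · exact caseBD h h1' t h2

/-- the pairing-local inequality for minimal fixes -/
theorem local_min (h : Dat W p q r s m m') :
    8 ≤ 2 * ∑ c ∈ W, kd p q c + 2 * ∑ c ∈ W, kd r s c + 2 * nn W p q r s + 2 * nn W r s p q +
      S4 (XX W p q r s m m') := by
  by_cases c1 : 2 ≤ ∑ c ∈ W, kd p q c
  · by_cases c2 : 2 ≤ ∑ c ∈ W, kd r s c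
    · exact caseA h c1 c2
    · have := caseB h.symm (by omega) c1
      rw [XX_symm] at this
      linarith
  · by_cases c2 : 2 ≤ ∑ c ∈ W, kd r s c
    · exact caseB h (by omega) c2
    · have htwo : Two W p q r s := ⟨h.hp, h.hq, h.hr, h.hs, h.hpW, h.hqW, h.hrW, h.hsW,
        by omega, by omega⟩
      have := caseC htwo
      have e : S4 (XX W p q r s m m') = S4 fun o o' => exc W (mrg p q o) (mrg r s o') := by
        congr 1
        funext o o'
        rw [h.XX1 (by omega)]
        have h3 : m' o o' = mrg r s o' :=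
          (h.hm' o o').eq (em_zero_of_kap h.hr h.hs h.hrW h.hsW (by omega) o')
        rw [h3, bb_zero, sub_zero]
      rw [e]
      exact this

end

end Pool.Agent.Helper49.OC2
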