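import Pool.Agent.Helper49.OC2.Local
import Pool.Agent.Helper2.OD.Iface

/-!
# Four-sample inequality: voluntary names do not hurt
-/

namespace Pool.Agent.Helper49.OC2

open Finset Pool.Agent.Helper2.OC

/-- private bit -/
def pB (a b : Bool) : ℤ := if (a && !b) = true then 1 else 0

/-- private on side `σ` -/
def pr (p : Sta) (σ : Bool) (c : ℕ) : ℤ := pB (bt p c σ) (bt p c (!σ))

theorem pB_nonneg (a b : Bool) : 0 ≤ pB a b := by unfold pB; split_ifs <;> norm_num
theorem pB_le_one (a b : Bool) : pB a b ≤ 1 := by unfold pB; split_ifs <;> norm_num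

theorem pr_eq_one {p : Sta} {σ : Bool} {c : ℕ} (h1 : c ∈ p σ) (h2 : c ∉ p (!σ)) : pr p σ c = 1 := by
  unfold pr pB
  rw [bt_true h1, bt_false h2]
  simp

theorem pr_cases {p : Sta} {σ : Bool} {c : ℕ} : pr p σ c = 0 ∨ (c ∈ p σ ∧ c ∉ p (!σ)) := by
  unfold pr pB
  cases h1 : bt p c σ <;> cases h2 : bt p c (!σ)
  · left; simp
  · left; simp
  · right; exact ⟨mem_of_bt h1, not_mem_of_bt h2⟩
  · left; simp

/-- private colours of `p` on side `σ` which are not private in `p0` -/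
def lost (p0 p : Sta) (σ : Bool) (c : ℕ) : ℤ := pr p σ c * (1 - pr p0 σ c)

theorem lost_nonneg (p0 p : Sta) (σ : Bool) (c : ℕ) : 0 ≤ lost p0 p σ c :=
  mul_nonneg (pB_nonneg _ _) (sub_nonneg.mpr (pB_le_one _ _))

theorem ei_le_lost {W : Finset ℕ} {p0 p : Sta} (hW : ∀ σ, p σ ⊆ W) (σ : Bool) :
    ei p0 σ ≤ ei p σ + ∑ c ∈ W, lost p0 p σ c := by
  have h0 : 0 ≤ ∑ c ∈ W, lost p0 p σ c := Finset.sum_nonneg fun c _ => lost_nonneg _ _ _ _
  by_cases h1 : p0 σ ⊆ p0 (!σ)
  · by_cases h2 : p σ ⊆ p (!σ)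
    · have e1 : ei p0 σ = 1 := by unfold ei; rw [if_pos h1]
      have e2 : ei p σ = 1 := by unfold ei; rw [if_pos h2]
      linarith
    · obtain ⟨c, hc, hc'⟩ := Finset.not_subset.mp h2
      have h3 : pr p0 σ c = 0 := by
        rcases pr_cases (p := p0) (σ := σ) (c := c) with h | h
        · exact h
        · exact absurd (h1 h.1) h.2
      have h4 : lost p0 p σ c = 1 := by
        unfold lost; rw [pr_eq_one hc hc', h3]; ring
      have h5 := le_sum (W := W) (f := fun c => lost p0 p σ c) (fun c => lost_nonneg _ _ _ _)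
        (hW σ hc)
      have e1 := ei_le_one p0 σ
      have e2 := ei_nonneg p σ
      simp only [h4] at h5
      linarith
  · have e1 : ei p0 σ = 0 := by unfold ei; rw [if_neg h1]
    have e2 := ei_nonneg p σ
    linarith

theorem em_le_lost {W : Finset ℕ} {p0 p : Sta} (hW : ∀ σ, p σ ⊆ W) :
    em p0 ≤ em p + ∑ c ∈ W, (lost p0 p false c + lost p0 p true c) := by
  rw [Finset.sum_add_distrib]
  have h1 := ei_le_lost hW (p0 := p0) false
  have h2 := ei_le_lost hW (p0 := p0) true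
  unfold em
  linarith

/-- `m` arises from `m0` by adding live colours which are free in `m0` -/
def Ext (m0 m : Sta) : Prop :=
  ∀ c, (∀ σ, (c ∈ m σ ↔ c ∈ m0 σ)) ∨ (F m0 c = 1 ∧ L m c = 1)

theorem ext_point {m0 m : Sta} (h : Ext m0 m) (q : Sta) (c : ℕ) :
    (lost (mrg m0 q false) (mrg m q false) false c + lost (mrg m0 q false) (mrg m q false) true c) +
      (lost (mrg m0 q true) (mrg m q true) false c + lost (mrg m0 q true) (mrg m q true) true c) ≤
    (2 * cu m q c + 2 * ck m q c + cd m q c) - (2 * cu m0 q c + 2 * ck m0 q c + cd m0 q c) := by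
  rcases h c with h | ⟨h1, h2⟩
  · have e : ∀ σ, bt m c σ = bt m0 c σ := fun σ => by unfold bt; simp [h σ]
    unfold lost pr cu ck cd L F D
    simp only [bt_mrg, e, Bool.xor_false, Bool.xor_true, Bool.not_false, Bool.not_true]
    generalize bt m0 c false = x1
    generalize bt m0 c true = x2
    generalize bt q c false = x3
    generalize bt q c true = x4
    revert x1 x2 x3 x4
    decide
  · unfold F at h1
    unfold L at h2
    unfold lost pr cu ck cd L F D
    simp only [bt_mrg, Bool.xor_false, Bool.xor_true, Bool.not_false, Bool.not_true]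
    generalize bt m0 c false = x1 at *
    generalize bt m0 c true = x2 at *
    generalize bt m c false = x3 at *
    generalize bt m c true = x4 at *
    generalize bt q c false = x5
    generalize bt q c true = x6
    revert x1 x2 x3 x4 x5 x6
    decide

theorem exc_mono {W : Finset ℕ} {m0 m q : Sta} (h : Ext m0 m) (hmW : ∀ σ, m σ ⊆ W)
    (hqW : ∀ σ, q σ ⊆ W) : exc W m0 q ≤ exc W m q := by
  have h1 := em_le_lost (W := W) (p0 := mrg m0 q false) (p := mrg m q false) (mrg_sub hmW hqW false)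
  have h2 := em_le_lost (W := W) (p0 := mrg m0 q true) (p := mrg m q true) (mrg_sub hmW hqW true)
  have h3 := Finset.sum_le_sum fun (c : ℕ) (_ : c ∈ W) => ext_point h q c
  rw [Finset.sum_add_distrib, Finset.sum_sub_distrib] at h3
  unfold exc e2
  linarith

open Classical in
/-- remove the voluntary names -/
noncomputable def mn (μ m : Sta) : Sta := fun σ => if μ σ ⊆ μ (!σ) then m σ else μ σ

theorem mn_pos {μ m : Sta} {σ : Bool} (h : μ σ ⊆ μ (!σ)) : mn μ m σ = m σ := by
  unfold mn; rw [if_pos h]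
theorem mn_neg {μ m : Sta} {σ : Bool} (h : ¬ μ σ ⊆ μ (!σ)) : mn μ m σ = μ σ := by
  unfold mn; rw [if_neg h]

theorem fix_sub {μ m : Sta} (h : Fix1 μ m) (σ : Bool) : μ σ ⊆ m σ := by
  obtain ⟨χ, h1, _⟩ := h
  rw [h1]
  exact Finset.subset_insert _ _

theorem mn_sub {μ m : Sta} (h : Fix1 μ m) (σ : Bool) : mn μ m σ ⊆ m σ := by
  by_cases h1 : μ σ ⊆ μ (!σ)
  · rw [mn_pos h1]
  · rw [mn_neg h1]; exact fix_sub h σ

theorem mn_minfix {μ m : Sta} (h : Fix1 μ m) : MinFix μ (mn μ m) := by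
  have hsub := mn_sub h
  have hfs := fix_sub h
  obtain ⟨χ, h1, h2⟩ := h
  refine ⟨fun σ hσ => mn_neg hσ, fun σ hσ => ⟨χ σ, ?_, ?_, ?_⟩⟩
  · have hn : χ σ ∉ μ (!σ) := fun hc => h2 σ (hfs _ hc)
    have hs : χ σ ∉ μ σ := fun hc => hn (hσ hc)
    intro τ
    by_cases ht : τ = σ
    · rw [ht]; exact hs
    · rw [bne ht]; exact hn
  · rw [mn_pos hσ, h1]
  · exact fun hc => h2 σ (hsub _ hc)

theorem mn_ext {μ m : Sta} (h : Fix1 μ m) : Ext (mn μ m) m := by
  have hsub := mn_sub h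
  have hfs := fix_sub h
  obtain ⟨χ, h1, h2⟩ := h
  intro c
  have key : ∀ σ, c ∈ m σ → c ∉ mn μ m σ → c ∉ m (!σ) := by
    intro σ hc hn
    by_cases hσ : μ σ ⊆ μ (!σ)
    · rw [mn_pos hσ] at hn; exact absurd hc hn
    · rw [mn_neg hσ] at hn
      rw [h1, Finset.mem_insert] at hc
      rcases hc with rfl | hc
      · exact h2 σ
      · exact absurd hc hn
  rcases F_zero_or_one (mn μ m) c with hF | hF
  · left
    obtain ⟨τ, hτ⟩ := mem_of_F_zero hF
    intro σ
    refine ⟨fun hc => ?_, fun hc => hsub σ hc⟩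
    by_contra hn
    have := key σ hc hn
    by_cases ht : τ = σ
    · exact hn (ht ▸ hτ)
    · rw [bne ht] at hτ
      exact this (hsub _ hτ)
  · have hn := F_eq_one_iff.mp hF
    rcases F_zero_or_one m c with hm | hm
    · right
      obtain ⟨σ, hσ⟩ := mem_of_F_zero hm
      exact ⟨hF, L_eq_one ⟨σ, hσ, key σ hσ (hn σ)⟩⟩
    · left
      have hm' := F_eq_one_iff.mp hm
      intro σ
      exact ⟨fun hc => absurd hc (hm' σ), fun hc => absurd hc (hn σ)⟩

theorem MinFix.names_ge {μ m : Sta} (h : MinFix μ m) {W : Finset ℕ} (hW : ∀ σ, m σ ⊆ W) :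
    em μ ≤ ∑ c ∈ W, (F μ c - F m c) := by
  have h0 : ∀ c, 0 ≤ F μ c - F m c := fun c => sub_nonneg.mpr (F_anti h.sub c)
  have hex : ∀ σ, μ σ ⊆ μ (!σ) → ∃ x, x ∈ m σ ∧ x ∉ m (!σ) ∧ F μ x - F m x = 1 := by
    intro σ hσ
    obtain ⟨x, h1, h2, h3⟩ := h.2 σ hσ
    have hx : x ∈ m σ := by rw [h2]; exact Finset.mem_insert_self _ _
    refine ⟨x, hx, h3, ?_⟩
    rw [F_eq_one_iff.mpr h1, F_eq_zero hx]
    ring
  unfold em ei
  by_cases hf : μ false ⊆ μ (!false) <;> by_cases ht : μ true ⊆ μ (!true)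
  · rw [if_pos hf, if_pos ht]
    obtain ⟨x, a1, a2, a3⟩ := hex false hf
    obtain ⟨y, b1, b2, b3⟩ := hex true ht
    have hne : x ≠ y := by rintro rfl; exact a2 b1
    have := sum_ge_two (W := W) (f := fun c => F μ c - F m c) h0 (hW _ a1) (hW _ b1) hne
    simp only [a3, b3] at this
    linarith
  · rw [if_pos hf, if_neg ht]
    obtain ⟨x, a1, a2, a3⟩ := hex false hf
    have := le_sum (W := W) (f := fun c => F μ c - F m c) h0 (hW _ a1)
    simp only [a3] at this
    linarith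
  · rw [if_neg hf, if_pos ht]
    obtain ⟨x, a1, a2, a3⟩ := hex true ht
    have := le_sum (W := W) (f := fun c => F μ c - F m c) h0 (hW _ a1)
    simp only [a3] at this
    linarith
  · rw [if_neg hf, if_neg ht]
    have := Finset.sum_nonneg fun (c : ℕ) (_ : c ∈ W) => h0 c
    linarith

/-- the good names -/
def gg (W : Finset ℕ) (μ m r s : Sta) : ℤ := ∑ c ∈ W, (F μ c - F m c) * (1 - kd r s c)

theorem gg_ge {W : Finset ℕ} {μ m r s : Sta} (h : Fix1 μ m) (hW : ∀ σ, m σ ⊆ W) :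
    em μ - bb W μ (mn μ m) r s ≤ gg W μ m r s := by
  have h1 := (mn_minfix h).names_ge (W := W) fun σ => (mn_sub h σ).trans (hW σ)
  have h2 : bb W μ (mn μ m) r s + ∑ c ∈ W, (F μ c - F (mn μ m) c) * (1 - kd r s c) =
      ∑ c ∈ W, (F μ c - F (mn μ m) c) := by
    unfold bb
    rw [← Finset.sum_add_distrib]
    exact Finset.sum_congr rfl fun c _ => by ring
  have h3 : ∑ c ∈ W, (F μ c - F (mn μ m) c) * (1 - kd r s c) ≤ gg W μ m r s := by
    refine Finset.sum_le_sum fun c _ => ?_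
    refine mul_le_mul_of_nonneg_right ?_ (sub_nonneg.mpr (kd_le_one _ _ _))
    have := F_anti (mn_sub h) c
    linarith
  linarith

section

variable {W : Finset ℕ} {p q r s : Sta} {m m' : Bool → Bool → Sta}

/-- the contribution of one combination of orientations, general fixes -/
def YY (W : Finset ℕ) (p q r s : Sta) (m m' : Bool → Bool → Sta) (o o' : Bool) : ℤ :=
  exc W (m o o') (m' o o') + (gg W (mrg p q o) (m o o') r s - em (mrg p q o)) +
    (gg W (mrg r s o') (m' o o') p q - em (mrg r s o'))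

/-- the pairing-local inequality -/
theorem local_ineq (hp : Sat p) (hq : Sat q) (hr : Sat r) (hs : Sat s) (hpW : ∀ σ, p σ ⊆ W)
    (hqW : ∀ σ, q σ ⊆ W) (hrW : ∀ σ, r σ ⊆ W) (hsW : ∀ σ, s σ ⊆ W)
    (hm : ∀ o o', Fix1 (mrg p q o) (m o o')) (hm' : ∀ o o', Fix1 (mrg r s o') (m' o o'))
    (hmW : ∀ o o' σ, m o o' σ ⊆ W) (hmW' : ∀ o o' σ, m' o o' σ ⊆ W) :
    8 ≤ 2 * ∑ c ∈ W, kd p q c + 2 * ∑ c ∈ W, kd r s c + 2 * nn W p q r s + 2 * nn W r s p q +
      S4 (YY W p q r s m m') := by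
  have h1 := local_min (W := W) (p := p) (q := q) (r := r) (s := s)
    (m := fun o o' => mn (mrg p q o) (m o o')) (m' := fun o o' => mn (mrg r s o') (m' o o'))
    ⟨hp, hq, hr, hs, hpW, hqW, hrW, hsW, fun o o' => mn_minfix (hm o o'),
      fun o o' => mn_minfix (hm' o o'), fun o o' σ => (mn_sub (hm o o') σ).trans (hmW o o' σ),
      fun o o' σ => (mn_sub (hm' o o') σ).trans (hmW' o o' σ)⟩
  have h2 : ∀ o o', XX W p q r s (fun o o' => mn (mrg p q o) (m o o'))
      (fun o o' => mn (mrg r s o') (m' o o')) o o' ≤ YY W p q r s m m' o o' := by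
    intro o o'
    unfold XX YY
    have a1 := gg_ge (W := W) (r := r) (s := s) (hm o o') (hmW o o')
    have a2 := gg_ge (W := W) (r := p) (s := q) (hm' o o') (hmW' o o')
    have a3 := exc_mono (W := W) (q := mn (mrg r s o') (m' o o')) (mn_ext (hm o o')) (hmW o o')
      (fun σ => (mn_sub (hm' o o') σ).trans (hmW' o o' σ))
    have a4 := exc_mono (W := W) (q := m o o') (mn_ext (hm' o o')) (hmW' o o') (hmW o o')
    rw [exc_comm W (mn (mrg r s o') (m' o o')), exc_comm W (m' o o')] at a4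
    simp only
    linarith
  unfold S4 at h1 ⊢
  linarith [h2 false false, h2 false true, h2 true false, h2 true true]

end

end Pool.Agent.Helper49.OC2
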