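import Pool.Agent.Helper49.OC2.Basic

/-!
# Four-sample inequality: structure of pairs of states
-/

namespace Pool.Agent.Helper49.OC2

open Finset Pool.Agent.Helper2.OC

/-- `x` alone on its side, `a`, `b` on the other side; no other live colours -/
def Trip (m : Sta) (x a b : ℕ) : Prop :=
  ∃ s, (x ∈ m s ∧ x ∉ m (!s)) ∧ (a ∈ m (!s) ∧ a ∉ m s) ∧ (b ∈ m (!s) ∧ b ∉ m s) ∧ a ≠ b ∧
    ∀ c, Live m c → c = x ∨ c = a ∨ c = b

/-- empty slots on side `s` -/
def es (p q : Sta) (s : Bool) : ℤ := ei (mrg p q false) s + ei (mrg p q true) s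

theorem e2_eq (p q : Sta) : e2 p q = es p q false + es p q true := by
  unfold e2 es em; ring

theorem es_nonneg (p q : Sta) (s : Bool) : 0 ≤ es p q s := add_nonneg (ei_nonneg _ _) (ei_nonneg _ _)

theorem e2_eq' (p q : Sta) (s : Bool) : e2 p q = es p q s + es p q (!s) := by
  rw [e2_eq]; cases s <;> simp [add_comm]

theorem slot {p q : Sta} {s t : Bool} (h1 : ∀ c, Live q c → ∃ σ, c ∈ p σ)
    (h2 : ∀ c, c ∈ p s → c ∉ p (!s) → c ∈ q t) : 1 ≤ es p q s := by
  have key : ei (mrg p q (xor (!s) t)) s = 1 := by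
    unfold ei
    rw [if_pos]
    intro c hc
    by_contra hc'
    unfold mrg at hc hc'
    rw [Finset.mem_union] at hc hc'
    push Not at hc'
    obtain ⟨n1, n2⟩ := hc'
    have e1 : xor (!s) (xor (!s) t) = t := by cases s <;> cases t <;> rfl
    have e2 : xor s (xor (!s) t) = !t := by cases s <;> cases t <;> rfl
    rw [e1] at n2
    rw [e2] at hc
    rcases hc with hc | hc
    · exact n2 (h2 c hc n1)
    · have hl : Live q c := ⟨!t, hc, by rw [Bool.not_not]; exact n2⟩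
      obtain ⟨σ, hσ⟩ := h1 c hl
      by_cases hs : c ∈ p s
      · exact n2 (h2 c hs n1)
      · cases s <;> cases σ <;> simp_all
  unfold es
  cases hx : xor (!s) t
  · rw [hx] at key
    rw [key]
    linarith [ei_nonneg (mrg p q true) s]
  · rw [hx] at key
    rw [key]
    linarith [ei_nonneg (mrg p q false) s]

theorem Trip.live {m : Sta} {x a b : ℕ} (h : Trip m x a b) :
    Live m x ∧ Live m a ∧ Live m b ∧ x ≠ a ∧ x ≠ b ∧ a ≠ b := by
  obtain ⟨s, ⟨h1, h2⟩, ⟨h3, h4⟩, ⟨h5, h6⟩, h7, _⟩ := h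
  refine ⟨⟨s, h1, h2⟩, ⟨!s, h3, by rw [Bool.not_not]; exact h4⟩,
    ⟨!s, h5, by rw [Bool.not_not]; exact h6⟩, ?_, ?_, h7⟩
  · rintro rfl; exact h4 h1
  · rintro rfl; exact h6 h1

theorem Live.mem {p : Sta} {c : ℕ} {W : Finset ℕ} (h : Live p c) (hW : ∀ σ, p σ ⊆ W) : c ∈ W := by
  obtain ⟨σ, h1, _⟩ := h
  exact hW σ h1

theorem sum_ge_three {W : Finset ℕ} {f : ℕ → ℤ} (h0 : ∀ c, 0 ≤ f c) {x a b : ℕ} (hx : x ∈ W)
    (ha : a ∈ W) (hb : b ∈ W) (h1 : x ≠ a) (h2 : x ≠ b) (h3 : a ≠ b) :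
    f x + f a + f b ≤ ∑ c ∈ W, f c := by
  have : ∑ c ∈ ({x, a, b} : Finset ℕ), f c = f x + f a + f b := by
    rw [Finset.sum_insert, Finset.sum_pair h3]
    · ring
    · simp [h1, h2]
  rw [← this]
  refine Finset.sum_le_sum_of_subset_of_nonneg ?_ fun c _ _ => h0 c
  intro c hc
  simp only [Finset.mem_insert, Finset.mem_singleton] at hc
  rcases hc with rfl | rfl | rfl <;> assumption

theorem sum_ge_two {W : Finset ℕ} {f : ℕ → ℤ} (h0 : ∀ c, 0 ≤ f c) {a b : ℕ}
    (ha : a ∈ W) (hb : b ∈ W) (h3 : a ≠ b) : f a + f b ≤ ∑ c ∈ W, f c := by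
  rw [← Finset.sum_pair h3]
  refine Finset.sum_le_sum_of_subset_of_nonneg ?_ fun c _ _ => h0 c
  intro c hc
  simp only [Finset.mem_insert, Finset.mem_singleton] at hc
  rcases hc with rfl | rfl <;> assumption

theorem le_sum {W : Finset ℕ} {f : ℕ → ℤ} (h0 : ∀ c, 0 ≤ f c) {a : ℕ} (ha : a ∈ W) :
    f a ≤ ∑ c ∈ W, f c := Finset.single_le_sum (fun c _ => h0 c) ha

theorem Trip.sumL {m : Sta} {x a b : ℕ} (h : Trip m x a b) {W : Finset ℕ} (hW : ∀ σ, m σ ⊆ W) :
    ∑ c ∈ W, L m c = 3 := by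
  obtain ⟨lx, la, lb, h1, h2, h3⟩ := h.live
  have hall : ∀ c, Live m c → c = x ∨ c = a ∨ c = b := by
    obtain ⟨s, _, _, _, _, h8⟩ := h
    exact h8
  have hsub : ({x, a, b} : Finset ℕ) ⊆ W := by
    intro c hc
    simp only [Finset.mem_insert, Finset.mem_singleton] at hc
    rcases hc with rfl | rfl | rfl
    · exact lx.mem hW
    · exact la.mem hW
    · exact lb.mem hW
  rw [← Finset.sum_subset hsub]
  · rw [Finset.sum_insert, Finset.sum_pair h3, L_eq_one lx, L_eq_one la, L_eq_one lb]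
    · norm_num
    · simp [h1, h2]
  · intro c _ hc
    rcases L_zero_or_one m c with h | h
    · exact h
    · have := hall c (live_iff.mpr h)
      simp only [Finset.mem_insert, Finset.mem_singleton, not_or] at hc
      tauto

/-- equality case of the pair inequality at a state with three live colours -/
theorem trip_tight {W : Finset ℕ} {p q : Sta} {x a b : ℕ} (ht : Trip p x a b) (hp : Sat p)
    (hq : Sat q) (hpW : ∀ σ, p σ ⊆ W) (hqW : ∀ σ, q σ ⊆ W) (h : exc W p q ≤ 0) :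
    (∀ σ, x ∉ q σ) ∧ Live q a ∧ Live q b ∧ ∀ c, Live q c → c = a ∨ c = b := by
  obtain ⟨h1, h2, h3, h4, h5, h6, h7, h8, h9⟩ := nums hp hq hpW hqW
  have hv := ht.sumL hpW
  rw [sumL_left W p q] at hv
  rw [exc_eq] at h
  obtain ⟨lx, la, lb, n1, n2, n3⟩ := ht.live
  have hxW := lx.mem hpW
  have haW := la.mem hpW
  have hbW := lb.mem hpW
  have hu2 : ∑ c ∈ W, L q c * F p c = 0 := by omega
  have hu1 : ∑ c ∈ W, L p c * F q c = 1 := by omega
  have hd1 : ∑ c ∈ W, L p c * D q c = 0 := by omega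
  have hd2 : ∑ c ∈ W, L q c * D p c = 0 := by omega
  have hk : ∑ c ∈ W, ck p q c = 2 := by omega
  have he : e2 p q = 0 := by omega
  have hnf : ∀ c, Live q c → ∃ σ, c ∈ p σ := by
    intro c hc
    have := (Finset.sum_eq_zero_iff_of_nonneg
      (fun c _ => mul_nonneg (L_nonneg q c) (F_nonneg p c))).mp hu2 c (hc.mem hqW)
    rw [L_eq_one hc, one_mul] at this
    exact mem_of_F_zero this
  have hx : ∀ σ, x ∉ q σ := by
    intro t hxt
    obtain ⟨s, ⟨a1, a2⟩, ⟨a3, a4⟩, ⟨a5, a6⟩, a7, a8⟩ := ht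
    have := slot (p := p) (q := q) (s := s) (t := t) hnf (by
      intro c c1 c2
      rcases a8 c ⟨s, c1, c2⟩ with rfl | rfl | rfl
      · exact hxt
      · exact absurd c1 a4
      · exact absurd c1 a6)
    have e := e2_eq' p q s
    have := es_nonneg p q (!s)
    omega
  have hFx : F q x = 1 := F_eq_one_iff.mpr hx
  have hLa : ∀ a, Live p a → a ≠ x → Live q a := by
    intro a la hne
    have s1 := sum_ge_two (W := W) (f := fun c => L p c * F q c)
      (fun c => mul_nonneg (L_nonneg _ _) (F_nonneg _ _)) hxW (la.mem hpW) (Ne.symm hne)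
    simp only [L_eq_one lx, L_eq_one la, hFx, hu1] at s1
    have s2 := le_sum (W := W) (f := fun c => L p c * D q c)
      (fun c => mul_nonneg (L_nonneg _ _) (D_nonneg _ _)) (la.mem hpW)
    simp only [L_eq_one la, hd1] at s2
    have f0 := F_nonneg q a
    have d0 := D_nonneg q a
    have := LFD q a
    exact live_iff.mpr (by linarith)
  have qa := hLa a la (Ne.symm n1)
  have qb := hLa b lb (Ne.symm n2)
  refine ⟨hx, qa, qb, ?_⟩
  intro c hc
  by_contra hne
  push Not at hne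
  have s3 := sum_ge_three (W := W) (f := fun c => L q c) (fun c => L_nonneg _ _) (hc.mem hqW)
    (qa.mem hqW) (qb.mem hqW) hne.1 hne.2 n3
  rw [L_eq_one hc, L_eq_one qa, L_eq_one qb, sumL_left W q p] at s3
  have ekk : ∑ c ∈ W, ck q p c = ∑ c ∈ W, ck p q c :=
    Finset.sum_congr rfl fun c _ => ck_comm _ _ _
  rw [ekk] at s3
  omega

/-! ### live / not free colours -/

theorem kd_zero_or_one (p q : Sta) (c : ℕ) : kd p q c = 0 ∨ kd p q c = 1 := by
  unfold kd ck cd L D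
  generalize bt p c false = x1
  generalize bt p c true = x2
  generalize bt q c false = x3
  generalize bt q c true = x4
  revert x1 x2 x3 x4
  decide

theorem kd_left {p q : Sta} {c : ℕ} {τ : Bool} (h : Live p c) (h2 : c ∈ q τ) : kd p q c = 1 := by
  have h1 := L_eq_one h
  have h3 := F_eq_zero h2
  have h4 := LFD q c
  have h5 := LFD p c
  have h6 := F_nonneg p c
  have h7 := D_nonneg p c
  have h8 : D p c = 0 := by linarith
  unfold kd ck cd
  rw [h1, h8]
  linarith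

theorem kd_right {p q : Sta} {c : ℕ} {τ : Bool} (h : Live q c) (h2 : c ∈ p τ) : kd p q c = 1 := by
  rw [kd_comm]; exact kd_left h h2

theorem kd_pos {p q : Sta} {c : ℕ} (h : kd p q c = 1) :
    (Live p c ∧ ∃ τ, c ∈ q τ) ∨ (Live q c ∧ ∃ τ, c ∈ p τ) := by
  have hp := LFD p c
  have hq := LFD q c
  unfold kd ck cd at h
  rcases L_zero_or_one p c with a1 | a1 <;> rcases L_zero_or_one q c with a2 | a2
  · rw [a1, a2] at h; norm_num at h
  · right
    refine ⟨live_iff.mpr a2, mem_of_F_zero ?_⟩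
    rw [a1, a2] at h
    have := F_nonneg p c
    linarith
  · left
    refine ⟨live_iff.mpr a1, mem_of_F_zero ?_⟩
    rw [a1, a2] at h
    have := F_nonneg q c
    linarith
  · left
    refine ⟨live_iff.mpr a1, mem_of_F_zero ?_⟩
    have := F_nonneg q c
    have := D_nonneg q c
    linarith

/-- an empty side of a merge -/
theorem empty_side {p q : Sta} {y σ : Bool} (h : mrg p q y σ ⊆ mrg p q y (!σ)) :
    (∀ c, c ∈ p σ → c ∉ p (!σ) → c ∈ q (xor (!σ) y)) ∧
    (∀ c, c ∈ q (xor σ y) → c ∉ q (xor (!σ) y) → c ∈ p (!σ)) := by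
  constructor
  · intro c h1 h2
    have := h (Finset.mem_union_left _ h1)
    rcases Finset.mem_union.mp this with h3 | h3
    · exact absurd h3 h2
    · exact h3
  · intro c h1 h2
    have := h (Finset.mem_union_right _ h1)
    rcases Finset.mem_union.mp this with h3 | h3
    · exact h3
    · exact absurd h3 h2

theorem em_pos {p : Sta} (h : 1 ≤ em p) : ∃ σ, p σ ⊆ p (!σ) := by
  by_contra hcon
  push Not at hcon
  have h1 := hcon false
  have h2 := hcon true
  unfold em ei at h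
  rw [if_neg h1, if_neg h2] at h
  norm_num at h

theorem em_two {p : Sta} (h : 2 ≤ em p) (σ : Bool) : p σ ⊆ p (!σ) := by
  by_contra hcon
  have hs := ei_le_one p (!σ)
  have : ei p σ = 0 := by unfold ei; rw [if_neg hcon]
  have e : em p = ei p σ + ei p (!σ) := by unfold em; cases σ <;> simp [add_comm]
  omega

theorem kap_two {W : Finset ℕ} {p q : Sta} (hp : Sat p) (hq : Sat q) (hpW : ∀ σ, p σ ⊆ W)
    (hqW : ∀ σ, q σ ⊆ W) {y : Bool} (h : 1 ≤ em (mrg p q y)) : 2 ≤ ∑ c ∈ W, kd p q c := by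
  obtain ⟨σ, hσ⟩ := em_pos h
  obtain ⟨h1, h2⟩ := empty_side hσ
  obtain ⟨a, a1, a2⟩ := hp σ
  obtain ⟨b, b1, b2⟩ := hq (xor σ y)
  have eb : (!(xor σ y)) = xor (!σ) y := by cases σ <;> cases y <;> rfl
  rw [eb] at b2
  have a3 := h1 a a1 a2
  have b3 := h2 b b1 b2
  have la : Live p a := ⟨σ, a1, a2⟩
  have lb : Live q b := ⟨xor σ y, b1, by rw [eb]; exact b2⟩
  have hab : a ≠ b := by rintro rfl; exact b2 a3
  have := sum_ge_two (W := W) (f := fun c => kd p q c) (fun c => kd_nonneg _ _ _) (la.mem hpW)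
    (lb.mem hqW) hab
  rw [kd_left la a3, kd_right lb b3] at this
  linarith

theorem kap_three {W : Finset ℕ} {p q : Sta} (hp : Sat p) (hq : Sat q) (hpW : ∀ σ, p σ ⊆ W)
    (hqW : ∀ σ, q σ ⊆ W) (h : 1 ≤ em (mrg p q false)) (h' : 1 ≤ em (mrg p q true)) :
    3 ≤ ∑ c ∈ W, kd p q c := by
  obtain ⟨σ, hσ⟩ := em_pos h
  obtain ⟨h1, h2⟩ := empty_side hσ
  obtain ⟨τ, hτ⟩ := em_pos h'
  obtain ⟨h3, h4⟩ := empty_side hτ
  simp only [Bool.xor_false, Bool.xor_true, Bool.not_not] at h1 h2 h3 h4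
  by_cases hst : τ = σ
  · subst hst
    -- the private colour of `p` on side `τ` is dead in `q`
    obtain ⟨a, a1, a2⟩ := hp τ
    obtain ⟨b, b1, b2⟩ := hq τ
    obtain ⟨c, c1, c2⟩ := hq (!τ)
    rw [Bool.not_not] at c2
    have a3 := h1 a a1 a2
    have a4 := h3 a a1 a2
    have b3 := h2 b b1 b2
    have c3 := h4 c c1 c2
    have la : Live p a := ⟨τ, a1, a2⟩
    have lb : Live q b := ⟨τ, b1, b2⟩
    have lc : Live q c := ⟨!τ, c1, by rw [Bool.not_not]; exact c2⟩
    have n1 : a ≠ b := by rintro rfl; exact b2 a3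
    have n2 : a ≠ c := by rintro rfl; exact c2 a4
    have n3 : b ≠ c := by rintro rfl; exact c2 b1
    have := sum_ge_three (W := W) (f := fun c => kd p q c) (fun c => kd_nonneg _ _ _) (la.mem hpW)
      (lb.mem hqW) (lc.mem hqW) n1 n2 n3
    rw [kd_left la a3, kd_right lb b3, kd_right lc c3] at this
    linarith
  · have hst' : τ = !σ := by cases τ <;> cases σ <;> simp_all
    subst hst'
    simp only [Bool.not_not] at h3 h4
    obtain ⟨a, a1, a2⟩ := hp σ
    obtain ⟨b, b1, b2⟩ := hp (!σ)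
    obtain ⟨c, c1, c2⟩ := hq σ
    rw [Bool.not_not] at b2
    have a3 := h1 a a1 a2
    have b3 := h3 b b1 b2
    have c3 := h2 c c1 c2
    have c4 := h4 c c1 c2
    have la : Live p a := ⟨σ, a1, a2⟩
    have lb : Live p b := ⟨!σ, b1, by rw [Bool.not_not]; exact b2⟩
    have lc : Live q c := ⟨σ, c1, c2⟩
    have n1 : a ≠ b := by rintro rfl; exact b2 a1
    have n2 : a ≠ c := by rintro rfl; exact a2 c3
    have n3 : b ≠ c := by rintro rfl; exact b2 c4
    have := sum_ge_three (W := W) (f := fun c => kd p q c) (fun c => kd_nonneg _ _ _) (la.mem hpW)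
      (lb.mem hpW) (lc.mem hqW) n1 n2 n3
    rw [kd_left la a3, kd_left lb b3, kd_right lc c3] at this
    linarith

theorem sum_ge_four {W : Finset ℕ} {f : ℕ → ℤ} (h0 : ∀ c, 0 ≤ f c) {w x a b : ℕ} (hw : w ∈ W)
    (hx : x ∈ W) (ha : a ∈ W) (hb : b ∈ W) (g1 : w ≠ x) (g2 : w ≠ a) (g3 : w ≠ b) (h1 : x ≠ a)
    (h2 : x ≠ b) (h3 : a ≠ b) : f w + f x + f a + f b ≤ ∑ c ∈ W, f c := by
  have : ∑ c ∈ ({w, x, a, b} : Finset ℕ), f c = f w + f x + f a + f b := by
    rw [Finset.sum_insert, Finset.sum_insert, Finset.sum_pair h3]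
    · ring
    · simp [h1, h2]
    · simp [g1, g2, g3]
  rw [← this]
  refine Finset.sum_le_sum_of_subset_of_nonneg ?_ fun c _ _ => h0 c
  intro c hc
  simp only [Finset.mem_insert, Finset.mem_singleton] at hc
  rcases hc with rfl | rfl | rfl | rfl <;> assumption

theorem kap_four {W : Finset ℕ} {p q : Sta} (hp : Sat p) (hq : Sat q) (hpW : ∀ σ, p σ ⊆ W)
    (hqW : ∀ σ, q σ ⊆ W) (h : 2 ≤ em (mrg p q false)) (h' : 2 ≤ em (mrg p q true)) :
    4 ≤ ∑ c ∈ W, kd p q c := by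
  obtain ⟨h1, h2⟩ := empty_side (em_two h false)
  obtain ⟨h3, h4⟩ := empty_side (em_two h true)
  obtain ⟨h5, h6⟩ := empty_side (em_two h' false)
  obtain ⟨h7, h8⟩ := empty_side (em_two h' true)
  simp only [Bool.xor_false, Bool.xor_true, Bool.not_false, Bool.not_true] at h1 h2 h3 h4 h5 h6 h7 h8
  obtain ⟨a, a1, a2⟩ := hp false
  obtain ⟨b, b1, b2⟩ := hp true
  obtain ⟨c, c1, c2⟩ := hq false
  obtain ⟨d, d1, d2⟩ := hq true
  simp only [Bool.not_false, Bool.not_true] at a2 b2 c2 d2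
  have a3 := h1 a a1 a2
  have a4 := h5 a a1 a2
  have b3 := h3 b b1 b2
  have b4 := h7 b b1 b2
  have c3 := h2 c c1 c2
  have d3 := h4 d d1 d2
  have la : Live p a := ⟨false, a1, a2⟩
  have lb : Live p b := ⟨true, b1, b2⟩
  have lc : Live q c := ⟨false, c1, c2⟩
  have ld : Live q d := ⟨true, d1, d2⟩
  have n1 : a ≠ b := by rintro rfl; exact b2 a1
  have n2 : a ≠ c := by rintro rfl; exact c2 a3
  have n3 : a ≠ d := by rintro rfl; exact d2 a4
  have n4 : b ≠ c := by rintro rfl; exact c2 b4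
  have n5 : b ≠ d := by rintro rfl; exact d2 b3
  have n6 : c ≠ d := by rintro rfl; exact d2 c1
  have := sum_ge_four (W := W) (f := fun c => kd p q c) (fun c => kd_nonneg _ _ _) (la.mem hpW)
    (lb.mem hpW) (lc.mem hqW) (ld.mem hqW) n1 n2 n3 n4 n5 n6
  rw [kd_left la a3, kd_left lb b3, kd_right lc c3, kd_right ld d3] at this
  linarith

end Pool.Agent.Helper49.OC2
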