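import Pool.Agent.Helper49.OC2.Struct

/-!
# Four-sample inequality: classification of exceptional pairs
-/

namespace Pool.Agent.Helper49.OC2

open Finset Pool.Agent.Helper2.OC

theorem sumL_add (W : Finset ℕ) (p q : Sta) : ∑ c ∈ W, L p c + ∑ c ∈ W, L q c =
    ∑ c ∈ W, cu p q c + 2 * ∑ c ∈ W, ck p q c + ∑ c ∈ W, cd p q c := by
  rw [sumL_left W p q, sumL_left W q p]
  have ekk : ∑ c ∈ W, ck q p c = ∑ c ∈ W, ck p q c :=
    Finset.sum_congr rfl fun c _ => ck_comm _ _ _
  have h1 : ∑ c ∈ W, cu p q c = ∑ c ∈ W, L p c * F q c + ∑ c ∈ W, L q c * F p c := by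
    rw [← Finset.sum_add_distrib]
    refine Finset.sum_congr rfl fun c _ => ?_
    unfold cu; ring
  have h2 : ∑ c ∈ W, cd p q c = ∑ c ∈ W, L p c * D q c + ∑ c ∈ W, L q c * D p c := by
    rw [← Finset.sum_add_distrib]
    refine Finset.sum_congr rfl fun c _ => ?_
    unfold cd; ring
  rw [ekk, h1, h2]
  ring

theorem sumL_mrg (W : Finset ℕ) (p q : Sta) :
    ∑ c ∈ W, L (mrg p q false) c + ∑ c ∈ W, L (mrg p q true) c =
      2 * ∑ c ∈ W, cu p q c + ∑ c ∈ W, ck p q c := by
  rw [← Finset.sum_add_distrib, Finset.mul_sum, ← Finset.sum_add_distrib]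
  exact Finset.sum_congr rfl fun c _ => L_mrg p q c

theorem sumL_mrg_ge (W : Finset ℕ) (p q : Sta) (y : Bool) :
    ∑ c ∈ W, cu p q c ≤ ∑ c ∈ W, L (mrg p q y) c :=
  Finset.sum_le_sum fun c _ => cu_le_L_mrg p q y c

theorem sum_kd (W : Finset ℕ) (p q : Sta) :
    ∑ c ∈ W, kd p q c = ∑ c ∈ W, ck p q c + ∑ c ∈ W, cd p q c := by
  rw [← Finset.sum_add_distrib]; rfl

theorem two_live {W : Finset ℕ} {p : Sta} (hp : Sat p) (hpW : ∀ σ, p σ ⊆ W)
    (h : ∑ c ∈ W, L p c = 2) :
    ∃ a : Bool → ℕ, (∀ σ, a σ ∈ p σ ∧ a σ ∉ p (!σ)) ∧ ∀ c, Live p c → c = a false ∨ c = a true := by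
  choose a ha ha' using hp
  refine ⟨a, fun σ => ⟨ha σ, ha' σ⟩, ?_⟩
  intro c hc
  by_contra hne
  push Not at hne
  have l0 : Live p (a false) := ⟨false, ha false, ha' false⟩
  have l1 : Live p (a true) := ⟨true, ha true, ha' true⟩
  have n : a false ≠ a true := by
    intro h
    have := ha' true
    rw [← h] at this
    exact this (ha false)
  have := sum_ge_three (W := W) (f := fun c => L p c) (fun c => L_nonneg _ _) (hc.mem hpW)
    (l0.mem hpW) (l1.mem hpW) hne.1 hne.2 n
  rw [L_eq_one hc, L_eq_one l0, L_eq_one l1, h] at this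
  norm_num at this

theorem type_zero {W : Finset ℕ} {p q : Sta} (hp : Sat p) (hq : Sat q) (hpW : ∀ σ, p σ ⊆ W)
    (hqW : ∀ σ, q σ ⊆ W) (h : ∑ c ∈ W, kd p q c = 0) (y : Bool) :
    4 ≤ ∑ c ∈ W, L (mrg p q y) c := by
  have h1 := two_le_L hp hpW
  have h2 := two_le_L hq hqW
  have h3 := sumL_add W p q
  have h4 := sum_kd W p q
  have h5 := sumL_mrg_ge W p q y
  have h6 : 0 ≤ ∑ c ∈ W, ck p q c := Finset.sum_nonneg fun c _ => ck_nonneg _ _ _
  have h7 : 0 ≤ ∑ c ∈ W, cd p q c := Finset.sum_nonneg fun c _ => cd_nonneg _ _ _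
  linarith

/-- large -/
def TyL (W : Finset ℕ) (p q : Sta) : Prop :=
  ∃ y, 4 ≤ ∑ c ∈ W, L (mrg p q y) c ∧ 3 ≤ ∑ c ∈ W, L (mrg p q (!y)) c

/-- one common live colour -/
def TyK (p q : Sta) : Prop :=
  ∃ y x a b, Trip (mrg p q y) x a b ∧ Live (mrg p q (!y)) a ∧ Live (mrg p q (!y)) b ∧
    (∀ c, Live (mrg p q (!y)) c → c = a ∨ c = b) ∧ (∀ σ, x ∈ mrg p q (!y) σ) ∧ kd p q x = 1

/-- one live/dead colour -/
def TyD (p q : Sta) : Prop :=
  ∃ x z w s, Trip (mrg p q false) w x z ∧ Trip (mrg p q true) z x w ∧ kd p q s = 1 ∧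
    s ≠ x ∧ s ≠ z ∧ s ≠ w

theorem free_of_kd {p q : Sta} {c : ℕ} (h : Live p c) (h0 : kd p q c ≠ 1) (σ : Bool) : c ∉ q σ :=
  fun hc => h0 (kd_left h hc)

theorem free_of_kd' {p q : Sta} {c : ℕ} (h : Live q c) (h0 : kd p q c ≠ 1) (σ : Bool) : c ∉ p σ :=
  fun hc => h0 (kd_right h hc)

theorem kd_unique {W : Finset ℕ} {p q : Sta} (h : ∑ c ∈ W, kd p q c = 1) {x c : ℕ} (hx : x ∈ W)
    (hc : c ∈ W) (h1 : kd p q x = 1) (hne : c ≠ x) : kd p q c ≠ 1 := by
  intro h2
  have := sum_ge_two (W := W) (f := fun c => kd p q c) (fun c => kd_nonneg _ _ _) hc hx hne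
  rw [h1, h2, h] at this
  norm_num at this

theorem live_mrg {p q : Sta} {y : Bool} {c : ℕ} (h : Live (mrg p q y) c) : Live p c ∨ Live q c := by
  obtain ⟨σ, h1, h2⟩ := h
  unfold mrg at h1 h2
  rw [Finset.mem_union] at h1 h2
  push Not at h2
  rcases h1 with h1 | h1
  · exact Or.inl ⟨σ, h1, h2.1⟩
  · refine Or.inr ⟨xor σ y, h1, ?_⟩
    have : (!(xor σ y)) = xor (!σ) y := by cases σ <;> cases y <;> rfl
    rw [this]
    exact h2.2

theorem bne {i j : Bool} (h : i ≠ j) : i = !j := by cases i <;> cases j <;> simp_all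

theorem type_one {W : Finset ℕ} {p q : Sta} (hp : Sat p) (hq : Sat q) (hpW : ∀ σ, p σ ⊆ W)
    (hqW : ∀ σ, q σ ⊆ W) (h : ∑ c ∈ W, kd p q c = 1) : TyL W p q ∨ TyK p q ∨ TyD p q := by
  have h1 := two_le_L hp hpW
  have h2 := two_le_L hq hqW
  have h3 := sumL_add W p q
  have h4 := sum_kd W p q
  have h5 := sumL_mrg W p q
  have h6 : 0 ≤ ∑ c ∈ W, ck p q c := Finset.sum_nonneg fun c _ => ck_nonneg _ _ _
  have h7 : 0 ≤ ∑ c ∈ W, cd p q c := Finset.sum_nonneg fun c _ => cd_nonneg _ _ _
  have h8 := sumL_mrg_ge W p q false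
  have h9 := sumL_mrg_ge W p q true
  by_cases hbig : 5 ≤ ∑ c ∈ W, L p c + ∑ c ∈ W, L q c
  · left
    by_cases hf : ∑ c ∈ W, L (mrg p q true) c ≤ ∑ c ∈ W, L (mrg p q false) c
    · exact ⟨false, by omega, by simp only [Bool.not_false]; omega⟩
    · exact ⟨true, by omega, by simp only [Bool.not_true]; omega⟩
  right
  have e1 : ∑ c ∈ W, L p c = 2 := by omega
  have e2 : ∑ c ∈ W, L q c = 2 := by omega
  obtain ⟨a, ha, hla⟩ := two_live hp hpW e1
  obtain ⟨b, hb, hlb⟩ := two_live hq hqW e2
  have la : ∀ σ, Live p (a σ) := fun σ => ⟨σ, (ha σ).1, (ha σ).2⟩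
  have lb : ∀ σ, Live q (b σ) := fun σ => ⟨σ, (hb σ).1, (hb σ).2⟩
  have hla' : ∀ c, Live p c → ∃ σ, c = a σ := fun c hc => by
    rcases hla c hc with h | h
    · exact ⟨_, h⟩
    · exact ⟨_, h⟩
  have hlb' : ∀ c, Live q c → ∃ σ, c = b σ := fun c hc => by
    rcases hlb c hc with h | h
    · exact ⟨_, h⟩
    · exact ⟨_, h⟩
  have naa : ∀ i, a (!i) ≠ a i := by
    intro i hi
    exact (ha i).2 (hi ▸ (ha (!i)).1)
  have nbb : ∀ i, b (!i) ≠ b i := by
    intro i hi
    exact (hb i).2 (hi ▸ (hb (!i)).1)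
  -- the special colour
  obtain ⟨x, hxW, hx⟩ : ∃ x ∈ W, kd p q x = 1 := by
    by_contra hcon
    push Not at hcon
    have : ∑ c ∈ W, kd p q c = 0 := Finset.sum_eq_zero fun c hc => by
      rcases kd_zero_or_one p q c with h | h
      · exact h
      · exact absurd h (hcon c hc)
    omega
  have huniq : ∀ c, c ∈ W → c ≠ x → kd p q c ≠ 1 := fun c hc hne =>
    kd_unique h hxW hc hx hne
  by_cases hboth : Live p x ∧ Live q x
  · left
    obtain ⟨i, hi⟩ := hla' x hboth.1
    obtain ⟨j, hj⟩ := hlb' x hboth.2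
    have fa : ∀ σ, a (!i) ∉ q σ :=
      free_of_kd (la _) (huniq _ ((la _).mem hpW) (by rw [hi]; exact naa i))
    have fb : ∀ σ, b (!j) ∉ p σ :=
      free_of_kd' (lb _) (huniq _ ((lb _).mem hqW) (by rw [hj]; exact nbb j))
    have xp : x ∈ p i := by rw [hi]; exact (ha i).1
    have xp' : x ∉ p (!i) := by rw [hi]; exact (ha i).2
    have xq : x ∈ q j := by rw [hj]; exact (hb j).1
    have xq' : x ∉ q (!j) := by rw [hj]; exact (hb j).2
    have ap : a (!i) ∈ p (!i) := (ha (!i)).1
    have ap' : a (!i) ∉ p i := by have := (ha (!i)).2; rwa [Bool.not_not] at this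
    have bq : b (!j) ∈ q (!j) := (hb (!j)).1
    have bq' : b (!j) ∉ q j := by have := (hb (!j)).2; rwa [Bool.not_not] at this
    have s1 : xor i (xor i j) = j := by cases i <;> cases j <;> rfl
    have s2 : xor (!i) (xor i j) = !j := by cases i <;> cases j <;> rfl
    have s3 : xor i (!(xor i j)) = !j := by cases i <;> cases j <;> rfl
    have s4 : xor (!i) (!(xor i j)) = j := by cases i <;> cases j <;> rfl
    refine ⟨xor i j, x, a (!i), b (!j), ⟨i, ⟨?_, ?_⟩, ⟨?_, ?_⟩, ⟨?_, ?_⟩, ?_, ?_⟩, ?_, ?_, ?_, ?_, hx⟩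
    · exact Finset.mem_union_left _ xp
    · unfold mrg; rw [s2, Finset.mem_union]; tauto
    · exact Finset.mem_union_left _ ap
    · unfold mrg; rw [s1, Finset.mem_union]; have := fa j; tauto
    · unfold mrg; rw [s2, Finset.mem_union]; tauto
    · unfold mrg; rw [s1, Finset.mem_union]; have := fb i; tauto
    · intro he; exact fa (!j) (he ▸ bq)
    · intro c hc
      rcases live_mrg hc with h | h
      · obtain ⟨σ, rfl⟩ := hla' c h
        by_cases hs : σ = i
        · left; rw [hs, hi]
        · right; left; rw [bne hs]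
      · obtain ⟨σ, rfl⟩ := hlb' c h
        by_cases hs : σ = j
        · left; rw [hs, hj]
        · right; right; rw [bne hs]
    · refine ⟨!i, ?_, ?_⟩
      · exact Finset.mem_union_left _ ap
      · rw [Bool.not_not]; unfold mrg; rw [s3, Finset.mem_union]; have := fa (!j); tauto
    · refine ⟨i, ?_, ?_⟩
      · unfold mrg; rw [s3, Finset.mem_union]; tauto
      · unfold mrg; rw [s4, Finset.mem_union]; have := fb (!i); tauto
    · intro c hc
      have hxd : ∀ σ, x ∈ mrg p q (!(xor i j)) σ := by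
        intro σ
        by_cases hs : σ = i
        · rw [hs]; exact Finset.mem_union_left _ xp
        · rw [bne hs]; unfold mrg; rw [s4, Finset.mem_union]; tauto
      have hcx : c ≠ x := by
        rintro rfl
        obtain ⟨σ, _, h2⟩ := hc
        exact h2 (hxd _)
      rcases live_mrg hc with h | h
      · obtain ⟨σ, rfl⟩ := hla' c h
        by_cases hs : σ = i
        · exact absurd (by rw [hs, hi]) hcx
        · left; rw [bne hs]
      · obtain ⟨σ, rfl⟩ := hlb' c h
        by_cases hs : σ = j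
        · exact absurd (by rw [hs, hj]) hcx
        · right; rw [bne hs]
    · intro σ
      by_cases hs : σ = i
      · rw [hs]; exact Finset.mem_union_left _ xp
      · rw [bne hs]; unfold mrg; rw [s4, Finset.mem_union]; tauto
  · right
    rcases kd_pos hx with ⟨hlx, τ, hτ⟩ | ⟨hlx, τ, hτ⟩
    · -- live in `p`, dead in `q`
      obtain ⟨i, hi⟩ := hla' x hlx
      have hnq : ¬ Live q x := fun h => hboth ⟨hlx, h⟩
      have fa : ∀ σ, a (!i) ∉ q σ :=
        free_of_kd (la _) (huniq _ ((la _).mem hpW) (by rw [hi]; exact naa i))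
      have nbx : ∀ j, b j ≠ x := fun j hj => hnq (hj ▸ lb j)
      have fb : ∀ j σ, b j ∉ p σ := fun j =>
        free_of_kd' (lb _) (huniq _ ((lb _).mem hqW) (nbx j))
      have xq : ∀ σ, x ∈ q σ := by
        intro σ
        by_contra hσ
        by_cases hs : τ = σ
        · exact hσ (hs ▸ hτ)
        · apply hnq
          refine ⟨τ, hτ, ?_⟩
          rw [bne hs, Bool.not_not]
          exact hσ
      have ap : a (!i) ∈ p (!i) := (ha (!i)).1
      have ap' : a (!i) ∉ p i := by have := (ha (!i)).2; rwa [Bool.not_not] at this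
      have nab : ∀ j, a (!i) ≠ b j := fun j he => fa j (he ▸ (hb j).1)
      have key : ∀ y, Trip (mrg p q y) (b (xor i y)) (a (!i)) (b (!(xor i y))) := by
        intro y
        have s2 : xor (!i) y = !(xor i y) := by cases i <;> cases y <;> rfl
        have b1 := (hb (xor i y)).1
        have b2 := (hb (xor i y)).2
        have b3 := (hb (!(xor i y))).1
        have b4 := (hb (!(xor i y))).2
        rw [Bool.not_not] at b4
        refine ⟨i, ⟨?_, ?_⟩, ⟨?_, ?_⟩, ⟨?_, ?_⟩, ?_, ?_⟩
        · exact Finset.mem_union_right _ b1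
        · unfold mrg; rw [s2, Finset.mem_union]; have := fb (xor i y) (!i); tauto
        · exact Finset.mem_union_left _ ap
        · unfold mrg; rw [Finset.mem_union]; have := fa (xor i y); tauto
        · unfold mrg; rw [s2, Finset.mem_union]; tauto
        · unfold mrg; rw [Finset.mem_union]; have := fb (!(xor i y)) i; tauto
        · exact nab _
        · intro c hc
          have hcx : c ≠ x := by
            rintro rfl
            obtain ⟨σ, _, h2⟩ := hc
            exact h2 (Finset.mem_union_right _ (xq _))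
          rcases live_mrg hc with h | h
          · obtain ⟨σ, rfl⟩ := hla' c h
            by_cases hs : σ = i
            · exact absurd (by rw [hs, hi]) hcx
            · right; left; rw [bne hs]
          · obtain ⟨σ, rfl⟩ := hlb' c h
            by_cases hs : σ = xor i y
            · left; rw [hs]
            · right; right; rw [bne hs]
      refine ⟨a (!i), b (!i), b i, x, ?_, ?_, hx, ?_, ?_, ?_⟩
      · have := key false
        rwa [Bool.xor_false] at this
      · have := key true
        rwa [Bool.xor_true, Bool.not_not] at this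
      · rw [hi]; exact (naa i).symm
      · exact (nbx _).symm
      · exact (nbx _).symm
    · -- dead in `p`, live in `q`
      obtain ⟨j, hj⟩ := hlb' x hlx
      have hnp : ¬ Live p x := fun h => hboth ⟨h, hlx⟩
      have fb : ∀ σ, b (!j) ∉ p σ :=
        free_of_kd' (lb _) (huniq _ ((lb _).mem hqW) (by rw [hj]; exact nbb j))
      have nax : ∀ i, a i ≠ x := fun i hi => hnp (hi ▸ la i)
      have fa : ∀ i σ, a i ∉ q σ := fun i =>
        free_of_kd (la _) (huniq _ ((la _).mem hpW) (nax i))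
      have xp : ∀ σ, x ∈ p σ := by
        intro σ
        by_contra hσ
        by_cases hs : τ = σ
        · exact hσ (hs ▸ hτ)
        · apply hnp
          refine ⟨τ, hτ, ?_⟩
          rw [bne hs, Bool.not_not]
          exact hσ
      have bq : b (!j) ∈ q (!j) := (hb (!j)).1
      have bq' : b (!j) ∉ q j := by have := (hb (!j)).2; rwa [Bool.not_not] at this
      have nba : ∀ i, b (!j) ≠ a i := fun i he => fb i (he ▸ (ha i).1)
      have key : ∀ y, Trip (mrg p q y) (a (xor j y)) (b (!j)) (a (!(xor j y))) := by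
        intro y
        have s1 : xor (xor j y) y = j := by cases j <;> cases y <;> rfl
        have s2 : xor (!(xor j y)) y = !j := by cases j <;> cases y <;> rfl
        have a1 := (ha (xor j y)).1
        have a2 := (ha (xor j y)).2
        have a3 := (ha (!(xor j y))).1
        have a4 := (ha (!(xor j y))).2
        rw [Bool.not_not] at a4
        refine ⟨xor j y, ⟨?_, ?_⟩, ⟨?_, ?_⟩, ⟨?_, ?_⟩, ?_, ?_⟩
        · exact Finset.mem_union_left _ a1
        · unfold mrg; rw [s2, Finset.mem_union]; have := fa (xor j y) (!j); tauto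
        · unfold mrg; rw [s2, Finset.mem_union]; tauto
        · unfold mrg; rw [s1, Finset.mem_union]; have := fb (xor j y); tauto
        · exact Finset.mem_union_left _ a3
        · unfold mrg; rw [s1, Finset.mem_union]; have := fa (!(xor j y)) j; tauto
        · exact nba _
        · intro c hc
          have hcx : c ≠ x := by
            rintro rfl
            obtain ⟨σ, _, h2⟩ := hc
            exact h2 (Finset.mem_union_left _ (xp _))
          rcases live_mrg hc with h | h
          · obtain ⟨σ, rfl⟩ := hla' c h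
            by_cases hs : σ = xor j y
            · left; rw [hs]
            · right; right; rw [bne hs]
          · obtain ⟨σ, rfl⟩ := hlb' c h
            by_cases hs : σ = j
            · exact absurd (by rw [hs, hj]) hcx
            · right; left; rw [bne hs]
      refine ⟨b (!j), a (!j), a j, x, ?_, ?_, hx, ?_, ?_, ?_⟩
      · have := key false
        rwa [Bool.xor_false] at this
      · have := key true
        rwa [Bool.xor_true, Bool.not_not] at this
      · rw [hj]; exact (nbb j).symm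
      · exact (nax _).symm
      · exact (nax _).symm

end Pool.Agent.Helper49.OC2
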